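import Pool.Agent.N891.OR.T1
import Pool.Agent.Y706.B4
set_option autoImplicit false

/-! Ultrapowers: points of bounded degree. -/

namespace Pool.Agent.N891.OX
open Pool.Agent.Y706

open MvPolynomial Pool.Agent.H936R2 Pool.Agent.H927R2.RD H294UB Pool.Agent.W275.UB
  Pool.Agent.W193.UB Pool.Agent.W554.UB NumberField

set_option linter.unusedSectionVars false

section

variable {k : Type} [Field k] [NumberField k] {ι J : Type} [Fintype ι] [Fintype J] [Sm (ι × J)]
  (ω : Module.Basis J ℤ (𝓞 k)) {U : Ultrafilter (ι × J → ℤ)}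

lemma psiF_mem (hd : S_dens) (hU : Gen U) (y : FractionRing (MvPolynomial ι (𝓞 k))) :
    psiF ω hd hU y ∈ IntermediateField.adjoin k (Set.range (Vk U (zk ω))) := by
  obtain ⟨a, b, _, rfl⟩ := IsFractionRing.div_surjective (A := MvPolynomial ι (𝓞 k)) y
  rw [map_div₀, psiF_algebraMap, psiF_algebraMap]
  exact div_mem (rho_mem ω U a) (rho_mem ω U b)

lemma psiF_closed (hd : S_dens) (hurel : S_urel) (hU : Gen U) (z : UP U k)
    (h : ∃ g : Polynomial (FractionRing (MvPolynomial ι (𝓞 k))), g ≠ 0 ∧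
      g.eval₂ (psiF ω hd hU) z = 0) : ∃ y, psiF ω hd hU y = z := by
  obtain ⟨j0⟩ : Nonempty J := ω.index_nonempty
  exact cl_lift (psiF ω hd hU) (IntermediateField.adjoin k (Set.range (Vk U (zk ω))))
    (psiF_mem ω hd hU) (mem_range ω hd hU)
    (fun z hz => rac hd hurel hU (zk ω) j0 (zk_ne ω j0) z hz) z h

end

end Pool.Agent.N891.OX
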