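import Pool.Agent.N891.OR.B4
import Pool.Agent.Y706.B5
set_option autoImplicit false

/-! For 100% of the members of a family over a number field the preperiodic points of bounded
degree are not more than those of the generic member. -/

namespace Pool.Agent.N891.OX
open Pool.Agent.Y706

open MvPolynomial Pool.Agent.H936R2 Pool.Agent.H927R2.RD H294UB Pool.Agent.W275.UB
  Pool.Agent.W193.UB Pool.Agent.W554.UB NumberField

section main

variable {k : Type} [Field k] [NumberField k] {ι J : Type} [Fintype ι] [Fintype J] [Sm (ι × J)]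
  (ω : Module.Basis J ℤ (𝓞 k)) {kb : Type} [Field kb] [Algebra k kb]

/-- the transfer to the generic member -/
theorem generic_ptsB (hitr : S_itr) (hcnt : TaskCnt) (hfin : S_fin) (hdens : S_dens)
    (hurel : S_urel) {N d s B C e : ℕ} (hd : 2 ≤ d) (he : 0 < e)
    (a : Idx (N + 1) d → MvPolynomial ι (𝓞 k)) (c : MvPolynomial ι (𝓞 k)) (hc : c ≠ 0)
    (hM : MonC s c (sy a)) (U : Ultrafilter (ι × J → ℤ)) (hU : Gen U)
    (x : (ι × J → ℤ) → Fin (C + 1) → Fin (N + 1) → kb)
    (i0 : (ι × J → ℤ) → Fin (C + 1) → Fin (N + 1))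
    (F : (ι × J → ℤ) → Fin (C + 1) → IntermediateField k kb)
    (h : ∀ᶠ w in (U : Filter (ι × J → ℤ)), (∀ l, x w l (i0 w l) = 1) ∧
      (∀ l l' (c : kb), x w l = c • x w l' → l = l') ∧
      (∀ l, ∃ c : kb, c ≠ 0 ∧
        (pt (sy fun i => algebraMap k kb (cf ω a w i)))^[C + e] (x w l) =
        c • (pt (sy fun i => algebraMap k kb (cf ω a w i)))^[C] (x w l)) ∧
      ∀ l, FiniteDimensional k (F w l) ∧ Module.finrank k (F w l) ≤ B ∧ ∀ j, x w l j ∈ F w l) :
    ¬ FewB (AlgebraicClosure (FractionRing (MvPolynomial ι (𝓞 k)))) B C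
      (fun i => algebraMap (MvPolynomial ι (𝓞 k)) (FractionRing (MvPolynomial ι (𝓞 k))) (a i)) := by
  classical
  let iE : Algebra (FractionRing (MvPolynomial ι (𝓞 k))) (UP U k) := (psiF ω hdens hU).toAlgebra
  let iO : Algebra (UP U k) (UP U kb) := (jU U).toAlgebra
  let iK : Algebra (FractionRing (MvPolynomial ι (𝓞 k))) (UP U kb) :=
    ((jU (kb := kb) U).comp (psiF ω hdens hU)).toAlgebra
  have iT : IsScalarTower (FractionRing (MvPolynomial ι (𝓞 k))) (UP U k) (UP U kb) :=
    IsScalarTower.of_algebraMap_eq fun _ => rfl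
  have : CharZero (FractionRing (MvPolynomial ι (𝓞 k))) :=
    charZero_of_injective_algebraMap (R := MvPolynomial ι (𝓞 k))
      (IsFractionRing.injective (MvPolynomial ι (𝓞 k)) (FractionRing (MvPolynomial ι (𝓞 k))))
  -- a constant normalised coordinate
  obtain ⟨m0, hm0⟩ : ∃ m0 : Fin (C + 1) → Fin (N + 1),
      ∀ᶠ w in (U : Filter (ι × J → ℤ)), i0 w = m0 := by
    obtain ⟨m0, hm⟩ := Ultrafilter.eq_pure_of_finite (U.map i0)
    refine ⟨m0, ?_⟩
    have h1 : {m0} ∈ U.map i0 := by
      rw [hm]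
      exact Set.mem_singleton m0
    exact h1
  have hMK : MonIn s (sy fun i => algebraMap (MvPolynomial ι (𝓞 k))
      (FractionRing (MvPolynomial ι (𝓞 k))) (a i)) := by
    refine (hM.map (algebraMap (MvPolynomial ι (𝓞 k))
      (FractionRing (MvPolynomial ι (𝓞 k))))).monIn ?_
    rw [isUnit_iff_ne_zero, Ne, FaithfulSMul.algebraMap_eq_zero_iff]
    exact hc
  let Xp : Fin (C + 1) → Fin (N + 1) → UP U kb := fun l i => up U kb fun w => x w l i
  have hco : (fun i => algebraMap (FractionRing (MvPolynomial ι (𝓞 k))) (UP U kb)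
      (algebraMap (MvPolynomial ι (𝓞 k)) (FractionRing (MvPolynomial ι (𝓞 k))) (a i))) =
      fun i => up U kb fun w => algebraMap k kb (cf ω a w i) := by
    funext i
    show jU U (psiF ω hdens hU (algebraMap _ _ (a i))) = _
    rw [psiF_algebraMap, rho_apply, jU_up]
    rfl
  -- evaluation in the ultrapower
  have hit : ∀ (m : ℕ) (l : Fin (C + 1)),
      (pt (sy fun i => algebraMap (FractionRing (MvPolynomial ι (𝓞 k))) (UP U kb)
        (algebraMap (MvPolynomial ι (𝓞 k)) (FractionRing (MvPolynomial ι (𝓞 k))) (a i))))^[m]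
        (Xp l) = fun i => up U kb fun w =>
          (pt (sy fun i => algebraMap k kb (cf ω a w i)))^[m] (x w l) i := by
    intro m l
    rw [hco]
    let v : Idx (N + 1) d → (ι × J → ℤ) → kb := fun i w => algebraMap k kb (cf ω a w i)
    let y : Fin (N + 1) → (ι × J → ℤ) → kb := fun i w => x w l i
    have h1 := it_map (up U kb) v y m
    have h3 : (fun i => (up U kb) (y i)) = Xp l := rfl
    rw [h3] at h1
    rw [h1]
    funext i
    congr 1
    funext w
    have h4 := it_map (Pi.evalRingHom (fun _ : (ι × J → ℤ) => kb) w) v y m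
    exact (congrFun h4 i).symm
  refine transport (E := UP U k) (Ω := UP U kb) hitr hcnt hfin ?_ hd _ hMK Xp m0 ?_ ?_ ?_ ?_
  · intro z hz
    obtain ⟨g, hg, hgz⟩ := hz
    exact psiF_closed ω hdens hurel hU z ⟨g, hg, hgz⟩
  · intro l
    rw [← map_one (up U kb)]
    refine up_eq.2 ?_
    filter_upwards [h, hm0] with w hw hw0
    rw [← hw0]
    exact hw.1 l
  · intro l l' c hcX
    obtain ⟨cw, hcw⟩ := up_surj c
    rw [← hcw] at hcX
    have h11 : ∀ᶠ w in (U : Filter (ι × J → ℤ)), ∀ i, x w l i = cw w * x w l' i := by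
      rw [Filter.eventually_all]
      intro i
      have h12 := congrFun hcX i
      rw [Pi.smul_apply, smul_eq_mul, ← map_mul] at h12
      exact up_eq.1 h12
    obtain ⟨w, hw, hw'⟩ := (h.and h11).exists
    exact hw.2.1 l l' (cw w) (funext hw')
  · intro l
    have h5 : ∀ w, ∃ c : kb, ((∃ c : kb, c ≠ 0 ∧
        (pt (sy fun i => algebraMap k kb (cf ω a w i)))^[C + e] (x w l) =
          c • (pt (sy fun i => algebraMap k kb (cf ω a w i)))^[C] (x w l)) →
        c ≠ 0 ∧ (pt (sy fun i => algebraMap k kb (cf ω a w i)))^[C + e] (x w l) =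
          c • (pt (sy fun i => algebraMap k kb (cf ω a w i)))^[C] (x w l)) := by
      intro w
      by_cases h6 : ∃ c : kb, c ≠ 0 ∧
        (pt (sy fun i => algebraMap k kb (cf ω a w i)))^[C + e] (x w l) =
          c • (pt (sy fun i => algebraMap k kb (cf ω a w i)))^[C] (x w l)
      · obtain ⟨c, hc⟩ := h6
        exact ⟨c, fun _ => hc⟩
      · exact ⟨0, fun h7 => absurd h7 h6⟩
    choose cc hcc using h5
    refine ⟨C, C + e, by omega, up U kb cc, ?_, ?_⟩
    · intro h0
      rw [up_eq_zero] at h0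
      obtain ⟨w, hw, hw0⟩ := (h.and h0).exists
      exact (hcc w (hw.2.2.1 l)).1 hw0
    · rw [hit, hit]
      funext i
      rw [Pi.smul_apply, smul_eq_mul, ← map_mul]
      refine up_eq.2 ?_
      filter_upwards [h] with w hw
      have h8 := (hcc w (hw.2.2.1 l)).2
      exact congrFun h8 i
  · intro l θ hθ
    have h9 : IntermediateField.adjoin (FractionRing (MvPolynomial ι (𝓞 k))) (Set.range (Xp l)) ≤
        germF (k := k) (K := FractionRing (MvPolynomial ι (𝓞 k))) (fun y => ⟨_, rfl⟩)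
          (fun w => F w l) := by
      rw [IntermediateField.adjoin_le_iff]
      rintro _ ⟨i, rfl⟩
      refine ⟨fun w => x w l i, rfl, ?_⟩
      filter_upwards [h] with w hw
      exact (hw.2.2.2 l).2.2 i
    obtain ⟨f, rfl, hf⟩ := h9 hθ
    refine deg_up f (fun w => F w l) B ?_
    filter_upwards [h, hf] with w hw hw'
    exact ⟨hw', (hw.2.2.2 l).1, (hw.2.2.2 l).2.1⟩

end main

end Pool.Agent.N891.OX
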