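import Pool.Agent.N891.OR.T2
import Pool.Agent.Y706.P5
set_option autoImplicit false

/-! One-parameter families, pulled back by a quotient `τ = A / B` of two polynomials. -/

namespace Pool.Agent.N891.OX
open Pool.Agent.Y706

open MvPolynomial Pool.Agent.H936R2 Pool.Agent.H927R2.RD H294UB Pool.Agent.W275.UB
  Pool.Agent.W193.UB Pool.Agent.W277.UH NumberField

set_option linter.unusedSectionVars false

section

variable {k : Type} [Field k] [NumberField k] {ι J : Type} [Fintype ι] [Fintype J] [Sm (ι × J)]
  (ω : Module.Basis J ℤ (𝓞 k))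

variable {A B : MvPolynomial ι (𝓞 k)}

lemma D0_B (hB : B ≠ 0) : D0 {w : ι × J → ℤ | MvPolynomial.eval (vec ω w) B = 0} := by
  obtain ⟨n, hn, hdvd⟩ := norm_poly ω B hB
  intro ε hε
  refine (D0_zero dens n hn ε hε).mono ?_
  intro w hw
  have h1 := hdvd w
  have h2 : MvPolynomial.eval (vec ω w) B = 0 := hw
  rw [h2, zero_dvd_iff] at h1
  show MvPolynomial.eval w n = 0
  exact_mod_cast h1

end

end Pool.Agent.N891.OX
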