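import Pool.Agent.N891.OR.B6
import Pool.Agent.N891.OR.P5
import Pool.Agent.Y706.B8
set_option autoImplicit false

/-! Families of endomorphisms of projective space at all rational parameters. -/

namespace Pool.Agent.N891.OX
open Pool.Agent.Y706

open MvPolynomial Pool.Agent.H936R2 Pool.Agent.H927R2.RD H294UB Pool.Agent.W275.UB
  Pool.Agent.W193.UB Pool.Agent.W554.UB NumberField

section

variable {k : Type} [Field k] [NumberField k] {m : ℕ}

/-- **Families of endomorphisms of projective space with `m` parameters, at all rational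
parameters.** -/
theorem paramB {J : Type} [Fintype J] [Sm (Fin (m + 1) × J)] (ω : Module.Basis J ℤ (𝓞 k)) (kb : Type) [Field kb]
    [Algebra k kb] {N d s B C₀ : ℕ} (hd : 2 ≤ d) (v : Idx (N + 1) d → MvPolynomial (Fin m) k)
    (hM : MonIn s (sy fun i =>
      algebraMap (MvPolynomial (Fin m) k) (FractionRing (MvPolynomial (Fin m) k)) (v i)))
    (hgen : FewB (AlgebraicClosure (FractionRing (MvPolynomial (Fin m) k))) B C₀
      (fun i => algebraMap (MvPolynomial (Fin m) k) (FractionRing (MvPolynomial (Fin m) k)) (v i))) :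
    D0 {w : Fin (m + 1) × J → ℤ | ¬ (vec ω w 0 ≠ 0 ∧
      (∃ s, MonIn s (sy fun i => eval (tp ω w) (v i))) ∧
      FewB kb B C₀ (fun i => eval (tp ω w) (v i)))} := by
  classical
  have hcz : CharZero (FractionRing (MvPolynomial (Fin m) k)) :=
    charZero_of_injective_algebraMap (R := k) (algebraMap k _).injective
  obtain ⟨c, hc, hci⟩ := exists_mult v
  set e : ℕ := Finset.univ.sup fun i => (v i).totalDegree with he
  have hve : ∀ i, (v i).totalDegree ≤ e := fun i =>
    Finset.le_sup (f := fun i => (v i).totalDegree) (Finset.mem_univ i)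
  set A : Fin m → MvPolynomial (Fin (m + 1)) (𝓞 k) := fun l => X l.succ with hA
  set B₀ : MvPolynomial (Fin (m + 1)) (𝓞 k) := X 0 with hB₀
  set a : Idx (N + 1) d → MvPolynomial (Fin (m + 1)) (𝓞 k) := fun i => homm A B₀ c e (v i) with ha
  have hB₀0 : B₀ ≠ 0 := MvPolynomial.X_ne_zero 0
  have hBK : algebraMap (MvPolynomial (Fin (m + 1)) (𝓞 k)) (KK k (Fin (m + 1))) B₀ ≠ 0 := by
    rw [Ne, FaithfulSMul.algebraMap_eq_zero_iff]
    exact hB₀0
  set u : KK k (Fin (m + 1)) := kap c *
    algebraMap (MvPolynomial (Fin (m + 1)) (𝓞 k)) (KK k (Fin (m + 1))) B₀ ^ e with hu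
  have hu0 : u ≠ 0 := mul_ne_zero ((map_ne_zero kap).2 hc) (pow_ne_zero _ hBK)
  have haK : (fun i => algebraMap (MvPolynomial (Fin (m + 1)) (𝓞 k)) (KK k (Fin (m + 1))) (a i)) =
      fun i => u * TM k m (algebraMap (MvPolynomial (Fin m) k)
        (FractionRing (MvPolynomial (Fin m) k)) (v i)) := by
    funext i
    rw [ha]
    simp only
    rw [homm_map kap (algebraMap (MvPolynomial (Fin (m + 1)) (𝓞 k)) (KK k (Fin (m + 1)))) kap_spec
      hBK (v i) (hve i) (hci i), TM_apply, aeval_kap]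
    rfl
  -- the generic member
  have hMT : MonIn s (sy fun i =>
      algebraMap (MvPolynomial (Fin (m + 1)) (𝓞 k)) (KK k (Fin (m + 1))) (a i)) := by
    rw [haK]
    exact monIn_scale hu0 (monIn_map (TM k m) hM)
  have hgen' : FewB (AlgebraicClosure (KK k (Fin (m + 1)))) B C₀ (fun i =>
      algebraMap (MvPolynomial (Fin (m + 1)) (𝓞 k)) (KK k (Fin (m + 1))) (a i)) := by
    rw [haK]
    exact fewB_scale hu0 _ (fewB_ext W405.UB.main (H294UB.taskCnt H294UB.taskFib)
      W125.UB.FinT.fin_main (TM k m) TM_cl hd _ hM hgen)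
  obtain ⟨s', c', hc', hMC⟩ := exists_monC
    ((algebraMap (KK k (Fin (m + 1))) (AlgebraicClosure (KK k (Fin (m + 1))))).comp
      (algebraMap (MvPolynomial (Fin (m + 1)) (𝓞 k)) (KK k (Fin (m + 1))))) a (by
      intro x hx
      exact no_zero _ (monIn_map (algebraMap (KK k (Fin (m + 1)))
        (AlgebraicClosure (KK k (Fin (m + 1))))) hMT) x hx)
  have hc'0 : c' ≠ 0 := by
    rintro rfl
    exact hc' (map_zero _)
  have h1 := (transferB ω kb hd a c' hc'0 hMC hgen').union (D0_B ω hB₀0)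
  intro ε hε
  refine (h1 ε hε).mono ?_
  intro w hw
  by_contra hcon
  rw [Set.mem_union, not_or] at hcon
  obtain ⟨hcon1, hcon2⟩ := hcon
  have hcon1' : eval (vec ω w) c' ≠ 0 ∧ FewB kb B C₀ (cf ω a w) := by
    by_contra h2
    exact hcon1 h2
  have hBw : sp ω w B₀ ≠ 0 := by
    rw [sp, RingHom.comp_apply, Ne, FaithfulSMul.algebraMap_eq_zero_iff]
    exact hcon2
  have hspX : ∀ i : Fin (m + 1), sp ω w (X i) = algebraMap (𝓞 k) k (vec ω w i) := by
    intro i
    rw [sp, RingHom.comp_apply, MvPolynomial.eval_X]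
  have hspec : ∀ y, sp ω w (MvPolynomial.C y : MvPolynomial (Fin (m + 1)) (𝓞 k)) =
      (RingHom.id k) (algebraMap (𝓞 k) k y) := by
    intro y
    rw [sp, RingHom.comp_apply, MvPolynomial.eval_C, RingHom.id_apply]
  have hcf : cf ω a w = fun i => (c * sp ω w B₀ ^ e) * eval (tp ω w) (v i) := by
    funext i
    show sp ω w (homm A B₀ c e (v i)) = _
    rw [homm_map (RingHom.id k) (sp ω w) hspec hBw (v i) (hve i) (hci i), RingHom.id_apply]
    congr 1
    have h2 : (fun l => sp ω w (A l) / sp ω w B₀) = tp ω w := by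
      funext l
      rw [hA, hB₀]
      simp only
      rw [hspX, hspX]
      rfl
    rw [h2]
    rfl
  have hc0 : c * sp ω w B₀ ^ e ≠ 0 := mul_ne_zero hc (pow_ne_zero _ hBw)
  apply hw
  refine ⟨?_, ⟨s', ?_⟩, ?_⟩
  · intro h0
    apply hBw
    rw [hB₀, hspX, h0, map_zero]
  · apply monIn_of_scale hc0
    have h3 : MonIn s' (sy (cf ω a w)) := by
      refine ((hMC.map (eval (vec ω w))).map (algebraMap (𝓞 k) k)).monIn ?_
      rw [isUnit_iff_ne_zero, Ne, FaithfulSMul.algebraMap_eq_zero_iff]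
      exact hcon1'.1
    rwa [hcf] at h3
  · apply fewB_of_scale hc0
    have h3 := hcon1'.2
    rwa [hcf] at h3

end

end Pool.Agent.N891.OX
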