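import Pool.Agent.N891.OR.Inst
import Pool.Agent.W883.UB.Dens
import Pool.Agent.W275.UB.Fin

/-!
# Polynomials are rarely divisible by high powers of a prime, for the pro-null density (helper891)

After `Pool.Agent.N455.TX.dens_of_UD` (helper455): the residue density of a set of small density in
boxes is small.
-/

set_option autoImplicit false
set_option linter.unusedSectionVars false

namespace Pool.Agent.N891.OR

open Pool.Agent.N24.RW Pool.Agent.N455.HT

section

variable {ι : Type} [Fintype ι]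

/-- the residue density of a set of small density in boxes is small -/
theorem ncard_of_UD {q : ℕ} (hq : 1 ≤ q) (Ω : Set (ι → ZMod q)) {ε : ℝ} (hε : 0 ≤ ε)
    (h : Pool.Agent.W275.UB.UD ε {v : ι → ℤ | (fun i => (v i : ZMod q)) ∈ Ω}) :
    (Ω.ncard : ℝ) ≤ 3 ^ Fintype.card ι * ε * (q : ℝ) ^ Fintype.card ι := by
  classical
  have : NeZero q := ⟨by omega⟩
  obtain ⟨H₀, hH₀⟩ := h
  set k : ℕ := H₀ + 1 with hk
  have hk1 : 1 ≤ k := by omega
  have hH := hH₀ (q * k) (by nlinarith)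
  have hfin : ({v | v ∈ {v : ι → ℤ | (fun i => (v i : ZMod q)) ∈ Ω} ∧
      ∀ i, |v i| ≤ ((q * k : ℕ) : ℤ)} : Set (ι → ℤ)).Finite := Pool.Agent.W275.UB.box_fin _ _
  have hΩ : Ω.Finite := Set.toFinite Ω
  set T : Finset ((ι → ZMod q) × (ι → Fin k)) := hΩ.toFinset ×ˢ Finset.univ with hT
  have hcard : T.card = Ω.ncard * k ^ Fintype.card ι := by
    rw [hT, Finset.card_product, Finset.card_univ, Fintype.card_fun, Fintype.card_fin,
      Set.ncard_eq_toFinset_card Ω hΩ]
  have hval : ∀ (ω : ι → ZMod q) (t : ι → Fin k) (i : ι),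
      0 ≤ ((ω i).val : ℤ) + q * ((t i : ℕ) : ℤ) ∧ ((ω i).val : ℤ) + q * ((t i : ℕ) : ℤ) ≤ (q * k : ℕ) := by
    intro ω t i
    have h1 : (ω i).val < q := ZMod.val_lt _
    have h2 : (t i : ℕ) < k := (t i).2
    refine ⟨by positivity, ?_⟩
    have h3 : (ω i).val + q * (t i : ℕ) ≤ q * k := by
      calc (ω i).val + q * (t i : ℕ) ≤ q + q * (t i : ℕ) := by omega
        _ = q * ((t i : ℕ) + 1) := by ring
        _ ≤ q * k := Nat.mul_le_mul_left _ h2
    exact_mod_cast h3
  have hle : T.card ≤ ({v | v ∈ {v : ι → ℤ | (fun i => (v i : ZMod q)) ∈ Ω} ∧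
      ∀ i, |v i| ≤ ((q * k : ℕ) : ℤ)} : Set (ι → ℤ)).ncard := by
    rw [← Set.ncard_coe_finset]
    refine Set.ncard_le_ncard_of_injOn (fun w i => ((w.1 i).val : ℤ) + q * ((w.2 i : ℕ) : ℤ)) ?_ ?_ hfin
    · rintro ⟨ω, t⟩ hw
      have hω : ω ∈ Ω := by
        rw [Finset.mem_coe, hT, Finset.mem_product, Set.Finite.mem_toFinset] at hw
        exact hw.1
      refine ⟨?_, fun i => ?_⟩
      · show (fun i => ((((ω i).val : ℤ) + q * ((t i : ℕ) : ℤ) : ℤ) : ZMod q)) ∈ Ω
        have h1 : (fun i => ((((ω i).val : ℤ) + q * ((t i : ℕ) : ℤ) : ℤ) : ZMod q)) = ω := by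
          funext i
          simp
        rw [h1]
        exact hω
      · rw [abs_le]
        have := hval ω t i
        constructor
        · have h2 : (0 : ℤ) ≤ ((q * k : ℕ) : ℤ) := by positivity
          simp only
          linarith [this.1]
        · exact this.2
    · rintro ⟨ω, t⟩ _ ⟨ω', t'⟩ _ heq
      have h1 : ∀ i, (ω i).val = (ω' i).val ∧ (t i : ℕ) = (t' i : ℕ) := by
        intro i
        have h2 : ((ω i).val : ℤ) + q * ((t i : ℕ) : ℤ) = ((ω' i).val : ℤ) + q * ((t' i : ℕ) : ℤ) :=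
          congrFun heq i
        have h3 : (ω i).val + q * (t i : ℕ) = (ω' i).val + q * (t' i : ℕ) := by exact_mod_cast h2
        have h4 : (ω i).val < q := ZMod.val_lt _
        have h5 : (ω' i).val < q := ZMod.val_lt _
        have h6 : ((ω i).val + q * (t i : ℕ)) % q = ((ω' i).val + q * (t' i : ℕ)) % q := by rw [h3]
        rw [Nat.add_mul_mod_self_left, Nat.add_mul_mod_self_left, Nat.mod_eq_of_lt h4,
          Nat.mod_eq_of_lt h5] at h6
        refine ⟨h6, ?_⟩
        rw [h6] at h3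
        have h7 : q * (t i : ℕ) = q * (t' i : ℕ) := by omega
        exact Nat.eq_of_mul_eq_mul_left (by omega) h7
      apply Prod.ext
      · funext i
        exact ZMod.val_injective q (h1 i).1
      · funext i
        exact Fin.ext (h1 i).2
  have h1 : (Ω.ncard : ℝ) * (k : ℝ) ^ Fintype.card ι ≤ ε * (3 * q * k) ^ Fintype.card ι := by
    calc (Ω.ncard : ℝ) * (k : ℝ) ^ Fintype.card ι = (T.card : ℝ) := by rw [hcard]; push_cast; ring
      _ ≤ (({v | v ∈ {v : ι → ℤ | (fun i => (v i : ZMod q)) ∈ Ω} ∧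
          ∀ i, |v i| ≤ ((q * k : ℕ) : ℤ)} : Set (ι → ℤ)).ncard : ℝ) := by exact_mod_cast hle
      _ ≤ ε * (2 * ((q * k : ℕ) : ℝ) + 1) ^ Fintype.card ι := hH
      _ ≤ ε * (3 * q * k) ^ Fintype.card ι := by
        have h2 : (1 : ℝ) ≤ q * k := by
          have : 1 ≤ q * k := Nat.mul_pos (by omega) hk1
          exact_mod_cast this
        have h3 : 2 * ((q * k : ℕ) : ℝ) + 1 ≤ 3 * q * k := by
          push_cast
          linarith
        gcongr
  have hk0 : (0 : ℝ) < k := by exact_mod_cast hk1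
  have h2 : (Ω.ncard : ℝ) * (k : ℝ) ^ Fintype.card ι ≤
      (3 ^ Fintype.card ι * ε * (q : ℝ) ^ Fintype.card ι) * (k : ℝ) ^ Fintype.card ι := by
    calc _ ≤ ε * (3 * q * k) ^ Fintype.card ι := h1
      _ = _ := by rw [mul_pow, mul_pow]; ring
  exact le_of_mul_le_mul_right h2 (by positivity)

/-- a polynomial is rarely divisible by a high power of a prime `p` that does not divide `M` -/
theorem dens_M {M : ℕ} (t : MvPolynomial ι ℤ) (ht : t ≠ 0) (p : ℕ) (hp : p.Prime) (hpM : ¬ p ∣ M)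
    (ε : ℝ) (hε : 0 < ε) :
    ∃ V : ℕ, UDM M ε {v : ι → ℤ | (p : ℤ) ^ (V + 1) ∣ MvPolynomial.eval v t} := by
  classical
  obtain ⟨V, hV⟩ := Pool.Agent.W883.UB.Dens.main ι t ht p hp (ε / (3 ^ Fintype.card ι))
    (by positivity)
  have hpos : 0 < p ^ (V + 1) := Nat.pow_pos hp.pos
  have : NeZero (p ^ (V + 1)) := ⟨hpos.ne'⟩
  have key : ∀ v : ι → ℤ, ev (fun i => (v i : ZMod (p ^ (V + 1)))) t = 0 ↔
      (p : ℤ) ^ (V + 1) ∣ MvPolynomial.eval v t := by
    intro v
    have h5 : (Int.castRingHom (ZMod (p ^ (V + 1)))).comp (MvPolynomial.eval v) =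
        ev (fun i => (v i : ZMod (p ^ (V + 1)))) := by
      rw [hom_eq_ev ((Int.castRingHom (ZMod (p ^ (V + 1)))).comp (MvPolynomial.eval v))]
      congr 1
      funext i
      rw [RingHom.comp_apply, MvPolynomial.eval_X]
      rfl
    rw [← h5, RingHom.comp_apply, eq_intCast, ZMod.intCast_zmod_eq_zero_iff_dvd]
    push_cast
    rfl
  have hset : {v : ι → ℤ | (p : ℤ) ^ (V + 1) ∣ MvPolynomial.eval v t} =
      {v : ι → ℤ | (fun i => (v i : ZMod (p ^ (V + 1)))) ∈
        {w : ι → ZMod (p ^ (V + 1)) | ev w t = 0}} := by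
    ext v
    exact (key v).symm
  refine ⟨V, p ^ (V + 1), hpos, ?_, ?_⟩
  · exact Nat.Coprime.pow_left _ ((Nat.Prime.coprime_iff_not_dvd hp).2 hpM)
  · rw [hset] at hV
    have h1 := ncard_of_UD hpos {w : ι → ZMod (p ^ (V + 1)) | ev w t = 0} (by positivity) hV
    have h2 : 3 ^ Fintype.card ι * (ε / 3 ^ Fintype.card ι) = ε := by field_simp
    rw [h2] at h1
    refine le_trans ?_ h1
    have hsub : (fun (c : ι → ℤ) (i : ι) => (c i : ZMod (p ^ (V + 1)))) ''
        {v : ι → ℤ | (p : ℤ) ^ (V + 1) ∣ MvPolynomial.eval v t} ⊆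
        {w : ι → ZMod (p ^ (V + 1)) | ev w t = 0} := by
      rintro _ ⟨c, hc, rfl⟩
      exact (key c).2 hc
    exact_mod_cast Set.ncard_le_ncard hsub (Set.toFinite _)

end

end Pool.Agent.N891.OR
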