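import Pool.Agent.N24.RW.Crit
import Pool.Agent.N455.HT.Dens

/-!
# The pro-null density and Hilbert's irreducibility theorem (helper891)

`UDM M ε A`: modulo some `q` prime to `M` the set `A` meets at most the proportion `ε` of all residue
classes. This is a notion of upper density for which polynomials are rarely divisible by a large prime
and for which Hilbert's irreducibility theorem holds: a thin set is pronull.
-/

set_option autoImplicit false
set_option linter.unusedSectionVars false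

namespace Pool.Agent.N891.OR

open Pool.Agent.N24.RW Pool.Agent.N455.HT

section

variable {ι : Type} [Fintype ι]

/-- modulo some `q` prime to `M` the set `A` meets at most the proportion `ε` of the residue classes -/
def UDM (M : ℕ) (ε : ℝ) (A : Set (ι → ℤ)) : Prop :=
  ∃ q : ℕ, 0 < q ∧ q.Coprime M ∧
    ((((fun (c : ι → ℤ) (i : ι) => (c i : ZMod q)) '' A).ncard : ℕ) : ℝ) ≤
      ε * (q : ℝ) ^ Fintype.card ι

theorem proNull_iff {B : Set (ι → ℤ)} :
    ProNull B ↔ ∀ M : ℕ, 0 < M → ∀ ε : ℝ, 0 < ε → UDM M ε B := Iff.rfl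

theorem UDM.mono {M : ℕ} {ε : ℝ} {A B : Set (ι → ℤ)} (h : UDM M ε B) (hAB : A ⊆ B) :
    UDM M ε A := by
  obtain ⟨q, hq, hqM, h⟩ := h
  have : NeZero q := ⟨hq.ne'⟩
  refine ⟨q, hq, hqM, le_trans ?_ h⟩
  exact_mod_cast Set.ncard_le_ncard (Set.image_mono hAB) (Set.toFinite _)

theorem UDM.le {M : ℕ} {ε δ : ℝ} {A : Set (ι → ℤ)} (h : ε ≤ δ) (hA : UDM M ε A) : UDM M δ A := by
  obtain ⟨q, hq, hqM, hA⟩ := hA
  refine ⟨q, hq, hqM, hA.trans ?_⟩
  gcongr

theorem UDM.empty {M : ℕ} {ε : ℝ} (hε : 0 < ε) : UDM M ε (∅ : Set (ι → ℤ)) := by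
  refine ⟨1, one_pos, Nat.coprime_one_left M, ?_⟩
  rw [Set.image_empty, Set.ncard_empty]
  push_cast
  positivity

/-- the number of residue classes modulo a multiple -/
theorem ncard_mul {q r : ℕ} (hq : 0 < q) (hr : 0 < r) (A : Set (ι → ℤ)) :
    ((fun (c : ι → ℤ) (i : ι) => (c i : ZMod (q * r))) '' A).ncard ≤
      ((fun (c : ι → ℤ) (i : ι) => (c i : ZMod q)) '' A).ncard * r ^ Fintype.card ι := by
  classical
  have : NeZero q := ⟨hq.ne'⟩
  have : NeZero r := ⟨hr.ne'⟩
  have : NeZero (q * r) := ⟨(Nat.mul_pos hq hr).ne'⟩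
  have h0 : (((fun (c : ι → ℤ) (i : ι) => (c i : ZMod q)) '' A) ×ˢ
      (Set.univ : Set (ι → Fin r))).ncard =
      ((fun (c : ι → ℤ) (i : ι) => (c i : ZMod q)) '' A).ncard * r ^ Fintype.card ι := by
    rw [Set.ncard_prod, Set.ncard_univ, Nat.card_eq_fintype_card, Fintype.card_fun, Fintype.card_fin]
  rw [← h0]
  have hlt : ∀ x : ZMod (q * r), x.val / q < r := fun x => by
    rw [Nat.div_lt_iff_lt_mul hq]
    exact (ZMod.val_lt x).trans_eq (mul_comm q r)
  refine Set.ncard_le_ncard_of_injOn (fun x => (fun i => ZMod.castHom (Dvd.intro r rfl) (ZMod q) (x i),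
    fun i => ⟨(x i).val / q, hlt _⟩)) ?_ ?_ (Set.toFinite _)
  · rintro _ ⟨c, hc, rfl⟩
    refine ⟨⟨c, hc, ?_⟩, Set.mem_univ _⟩
    funext i
    simp
  · intro x _ y _ h
    funext i
    have h1 : ZMod.castHom (Dvd.intro r rfl) (ZMod q) (x i) =
        ZMod.castHom (Dvd.intro r rfl) (ZMod q) (y i) := congrFun (congrArg Prod.fst h) i
    have h2 : (x i).val / q = (y i).val / q :=
      congrArg Fin.val (congrFun (congrArg Prod.snd h) i)
    have h3 : ((x i).val : ZMod q) = ((y i).val : ZMod q) := by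
      rw [ZMod.castHom_apply, ZMod.castHom_apply, ZMod.cast_eq_val, ZMod.cast_eq_val] at h1
      exact h1
    rw [ZMod.natCast_eq_natCast_iff] at h3
    apply ZMod.val_injective
    have h4 : (x i).val % q = (y i).val % q := h3
    rw [← Nat.div_add_mod (x i).val q, ← Nat.div_add_mod (y i).val q, h2, h4]

theorem UDM.union {M : ℕ} {ε ε' : ℝ} {A B : Set (ι → ℤ)} (hA : UDM M ε A) (hB : UDM M ε' B) :
    UDM M (ε + ε') (A ∪ B) := by
  obtain ⟨q, hq, hqM, hA⟩ := hA
  obtain ⟨r, hr, hrM, hB⟩ := hB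
  refine ⟨q * r, Nat.mul_pos hq hr, Nat.Coprime.mul_left hqM hrM, ?_⟩
  have h1 : ((((fun (c : ι → ℤ) (i : ι) => (c i : ZMod (q * r))) '' A).ncard : ℕ) : ℝ) ≤
      ε * (q : ℝ) ^ Fintype.card ι * (r : ℝ) ^ Fintype.card ι := by
    refine (Nat.cast_le.2 (ncard_mul hq hr A)).trans ?_
    push_cast
    gcongr
  have h2 : ((((fun (c : ι → ℤ) (i : ι) => (c i : ZMod (q * r))) '' B).ncard : ℕ) : ℝ) ≤
      ε' * (r : ℝ) ^ Fintype.card ι * (q : ℝ) ^ Fintype.card ι := by
    have h3 := ncard_mul hr hq B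
    rw [mul_comm r q] at h3
    refine (Nat.cast_le.2 h3).trans ?_
    push_cast
    gcongr
  rw [Set.image_union]
  refine (Nat.cast_le.2 (Set.ncard_union_le _ _)).trans ?_
  push_cast
  rw [mul_pow]
  nlinarith [h1, h2]

/-- a pronull set for the primes that do not divide `M` -/
def D0M (M : ℕ) (A : Set (ι → ℤ)) : Prop := ∀ ε : ℝ, 0 < ε → UDM M ε A

theorem D0M.mono {M : ℕ} {A B : Set (ι → ℤ)} (h : D0M M B) (hAB : A ⊆ B) : D0M M A :=
  fun ε hε => (h ε hε).mono hAB

theorem D0M.union {M : ℕ} {A B : Set (ι → ℤ)} (hA : D0M M A) (hB : D0M M B) : D0M M (A ∪ B) := by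
  intro ε hε
  have := (hA (ε / 2) (by positivity)).union (hB (ε / 2) (by positivity))
  rwa [add_halves] at this

theorem D0M.empty {M : ℕ} : D0M M (∅ : Set (ι → ℤ)) := fun _ hε => UDM.empty hε

/-- a polynomial is rarely divisible by a large prime -/
theorem densp_M (M : ℕ) (hM : 0 < M) (t : MvPolynomial ι ℤ) (ht : t ≠ 0) (ε : ℝ) (hε : 0 < ε) :
    ∃ P₀ : ℕ, ∀ p : ℕ, p.Prime → P₀ ≤ p →
      UDM M ε {v : ι → ℤ | (p : ℤ) ∣ MvPolynomial.eval v t} := by
  classical
  obtain ⟨p₀, hp₀⟩ := zeros_le t ht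
  refine ⟨max p₀ (max (M + 1) ⌈(t.totalDegree : ℝ) / ε⌉₊), fun p hp hpp => ?_⟩
  have hF : Fact p.Prime := ⟨hp⟩
  have h1 := hp₀ p ((le_max_left _ _).trans hpp)
  have h2 : M + 1 ≤ p := ((le_max_left _ _).trans (le_max_right _ _)).trans hpp
  have h3 : (t.totalDegree : ℝ) / ε ≤ p :=
    (Nat.le_ceil _).trans (by exact_mod_cast ((le_max_right _ _).trans (le_max_right _ _)).trans hpp)
  have hp0 : (0 : ℝ) < p := by exact_mod_cast hp.pos
  refine ⟨p, hp.pos, (Nat.Prime.coprime_iff_not_dvd hp).2 fun h => ?_, ?_⟩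
  · have := Nat.le_of_dvd hM h
    omega
  · have hsub : (fun (c : ι → ℤ) (i : ι) => (c i : ZMod p)) ''
        {v : ι → ℤ | (p : ℤ) ∣ MvPolynomial.eval v t} ⊆ {v : ι → ZMod p | ev v t = 0} := by
      rintro _ ⟨c, hc, rfl⟩
      have h4 : (p : ℤ) ∣ MvPolynomial.eval c t := hc
      show ev (fun i => (c i : ZMod p)) t = 0
      have h5 : (Int.castRingHom (ZMod p)).comp (MvPolynomial.eval c) =
          ev (fun i => (c i : ZMod p)) := by
        rw [hom_eq_ev ((Int.castRingHom (ZMod p)).comp (MvPolynomial.eval c))]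
        congr 1
        funext i
        rw [RingHom.comp_apply, MvPolynomial.eval_X]
        rfl
      rw [← h5, RingHom.comp_apply, eq_intCast, ZMod.intCast_zmod_eq_zero_iff_dvd]
      exact h4
    refine (Nat.cast_le.2 (Set.ncard_le_ncard hsub (Set.toFinite _))).trans ?_
    have h6 : (({v : ι → ZMod p | ev v t = 0}.ncard : ℕ) : ℝ) =
        (Nat.card {v : ι → ZMod p // ev v t = 0} : ℝ) := rfl
    rw [h6]
    rw [div_le_iff₀ hε] at h3
    have hQ : (0 : ℝ) < (p : ℝ) ^ Fintype.card ι := by positivity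
    have h7 : (Nat.card {v : ι → ZMod p // ev v t = 0} : ℝ) * p ≤
        (ε * (p : ℝ) ^ Fintype.card ι) * p := by
      refine h1.trans ?_
      nlinarith
    exact le_of_mul_le_mul_right h7 hp0

open Polynomial in
/-- thin sets: irreducible monic polynomials -/
theorem proNull_irr {P : (MvPolynomial ι ℤ)[X]} (hP : P.Monic) (hd : 2 ≤ P.natDegree)
    (hirr : Irreducible P) : ProNull {v : ι → ℤ | ∃ T : ℤ, IsRt P v T} := by
  classical
  intro M hM ε hε
  refine UDM.mono (t_CRIT ι (fun p => p) (fun p hp => hp.one_lt.le)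
    (fun p p' hp hp' h => (Nat.coprime_primes hp hp').2 h) (fun p => NR P p) 0
    (fun p => ((NR P p).ncard : ℝ) / (p : ℝ) ^ Fintype.card ι) (fun p => by positivity) ?_
    (fun p hp _ => ?_) M hM ε hε) ?_
  · intro hs
    obtain ⟨T, hT, hTM⟩ := exists_primes hP hd hirr
      ((∑' p : ℕ, if p.Prime then ((NR P p).ncard : ℝ) / (p : ℝ) ^ Fintype.card ι else 0) + 1)
    have h1 := hs.sum_le_tsum T (fun p _ => by split_ifs <;> positivity)
    have h2 : ∑ p ∈ T, ((NR P p).ncard : ℝ) / (p : ℝ) ^ Fintype.card ι =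
        ∑ p ∈ T, (if p.Prime then ((NR P p).ncard : ℝ) / (p : ℝ) ^ Fintype.card ι else 0) :=
      Finset.sum_congr rfl fun p hp => by rw [if_pos (hT p hp)]
    rw [h2] at hTM
    linarith
  · have : (0 : ℝ) < (p : ℝ) ^ Fintype.card ι := by
      have := hp.pos
      positivity
    rw [div_mul_cancel₀ _ this.ne']
  · rintro v ⟨T, hT⟩ p hp _ hNR
    refine hNR (T : ZMod p) ?_
    rw [isRt_iff] at hT ⊢
    have h1 := congrArg (Int.castRingHom (ZMod p)) hT
    rw [hom_eval₂, map_zero] at h1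
    have h5 : (Int.castRingHom (ZMod p)).comp (ev v : MvPolynomial ι ℤ →+* ℤ) =
        ev (fun i => (v i : ZMod p)) := by
      rw [hom_eq_ev ((Int.castRingHom (ZMod p)).comp (ev v))]
      congr 1
      funext i
      rw [RingHom.comp_apply, ev_X]
      rfl
    rw [h5] at h1
    exact h1

open Polynomial in
theorem isRt_mul' {P Q : (MvPolynomial ι ℤ)[X]} {v : ι → ℤ} {a : ℤ}
    (h : IsRt (P * Q) v a) : IsRt P v a ∨ IsRt Q v a := by
  unfold IsRt at h ⊢
  rw [Polynomial.map_mul, eval_mul] at h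
  exact mul_eq_zero.1 h

open Polynomial in
/-- **Hilbert irreducibility for integral roots of monic polynomials: thin sets are pronull.** -/
theorem hit_M {M : ℕ} (hM : 0 < M) : ∀ (m : ℕ)
    (P : (MvPolynomial ι ℤ)[X]), P.natDegree = m → P.Monic → (∀ a, P.eval a ≠ 0) →
    D0M M {v : ι → ℤ | ∃ a : ℤ, IsRt P v a} := by
  intro m
  induction m using Nat.strong_induction_on with
  | _ m ih =>
    intro P hPm hP hroot
    by_cases h0 : P.natDegree = 0
    · have h1 : P = 1 := eq_one_of_monic_natDegree_zero hP h0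
      refine D0M.mono D0M.empty ?_
      rintro n ⟨a, ha⟩
      unfold IsRt at ha
      rw [h1, Polynomial.map_one, eval_one] at ha
      exact one_ne_zero ha
    · have hnu : ¬ IsUnit P := fun h => h0 (natDegree_eq_zero_of_isUnit h)
      obtain ⟨Q, hQ, R, hR⟩ := WfDvdMonoid.exists_irreducible_factor hnu hP.ne_zero
      -- make the factor monic
      have hlc : Q.leadingCoeff * R.leadingCoeff = 1 := by
        rw [← leadingCoeff_mul, ← hR]
        exact hP
      set Q' := Q * C R.leadingCoeff with hQ'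
      set R' := R * C Q.leadingCoeff with hR'
      have hQm : Q'.Monic := by
        unfold Polynomial.Monic
        rw [hQ', leadingCoeff_mul, leadingCoeff_C, hlc]
      have hRm : R'.Monic := by
        unfold Polynomial.Monic
        rw [hR', leadingCoeff_mul, leadingCoeff_C, mul_comm, hlc]
      have hPQR : P = Q' * R' := by
        rw [hR, hQ', hR']
        have : C R.leadingCoeff * C Q.leadingCoeff = (1 : (MvPolynomial ι ℤ)[X]) := by
          rw [← C_mul, mul_comm, hlc, C_1]
        calc Q * R = Q * R * (C R.leadingCoeff * C Q.leadingCoeff) := by rw [this, mul_one]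
          _ = _ := by ring
      have hQi : Irreducible Q' := by
        have hu : IsUnit (C R.leadingCoeff : (MvPolynomial ι ℤ)[X]) := by
          refine Polynomial.isUnit_C.2 ?_
          exact IsUnit.of_mul_eq_one Q.leadingCoeff (by rw [mul_comm]; exact hlc)
        rw [hQ', irreducible_mul_isUnit hu]
        exact hQ
      have hQr : ∀ a, Q'.eval a ≠ 0 := by
        intro a ha
        apply hroot a
        rw [hPQR, eval_mul, ha, zero_mul]
      have hQd : 2 ≤ Q'.natDegree := by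
        by_contra hlt
        have h1 : Q'.natDegree = 0 ∨ Q'.natDegree = 1 := by omega
        rcases h1 with h1 | h1
        · have h2 : Q' = 1 := eq_one_of_monic_natDegree_zero hQm h1
          exact hQi.not_isUnit (by rw [h2]; exact isUnit_one)
        · have h2 := hQm.eq_X_add_C h1
          apply hQr (-(Q'.coeff 0))
          rw [h2]
          simp
      have hdeg : Q'.natDegree + R'.natDegree = P.natDegree := by
        rw [hPQR, hQm.natDegree_mul hRm]
      have n1 : D0M M {v : ι → ℤ | ∃ a : ℤ, IsRt Q' v a} := proNull_irr hQm hQd hQi M hM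
      have n2 := ih R'.natDegree (by omega) R' rfl hRm (by
        intro a ha
        apply hroot a
        rw [hPQR, eval_mul, ha, mul_zero])
      refine D0M.mono (D0M.union n1 n2) ?_
      rintro n ⟨a, ha⟩
      rw [hPQR] at ha
      rcases isRt_mul' ha with h | h
      · exact Or.inl ⟨a, h⟩
      · exact Or.inr ⟨a, h⟩

/-- the form used in the class of densities -/
theorem hit_eval {M : ℕ} (hM : 0 < M) (P : Polynomial (MvPolynomial ι ℤ)) (hP : P.Monic)
    (hroot : ∀ a, P.eval a ≠ 0) (ε : ℝ) (hε : 0 < ε) :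
    UDM M ε {v : ι → ℤ | ∃ T : ℤ, (P.map (MvPolynomial.eval v)).eval T = 0} := by
  refine (hit_M hM P.natDegree P rfl hP hroot ε hε).mono ?_
  rintro v ⟨a, ha⟩
  refine ⟨a, ?_⟩
  unfold IsRt
  have h2 : (ev v : MvPolynomial ι ℤ →+* ℤ) = MvPolynomial.eval v := by
    refine RingHom.ext fun c => ?_
    rw [ev_eq_eval_map]
    congr 1
    exact MvPolynomial.map_id c
  rw [h2]
  exact ha

end

end Pool.Agent.N891.OR
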