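import Pool.Agent.N455.TX.Prt
import Pool.Agent.Y706.PT3
import Pool.Agent.N891.OR.Inst
import Pool.Agent.N24.RW.All

/-!
# Every portrait of the generic member specialises outside of a pronull set: rational numbers

(after `Pool.Agent.N455.TX.spec_Q`, helper455)
-/

set_option autoImplicit false

namespace Pool.Agent.N891.OY
open Pool.Agent.Y706 Pool.Agent.N455.TX

open MvPolynomial Pool.Agent.H936R2 Pool.Agent.H927R2.RD H294UB
open Pool.Agent.W193.UB Pool.Agent.W554.UB NumberField
open Pool.Agent.W275.UB hiding UD D0 Gen S_dens S_densp S_hit S_exu S_urel S_gen S_genT S_type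
open Pool.Agent.N24.RW (ProNull)

/-- the pronull density at the primes that do not divide `M` -/
@[reducible] def smPro (ι : Type) [Fintype ι] (M : ℕ) (hM : 0 < M) : Sm ι where
  UD := OR.UDM M
  mono' := fun h hST => OR.UDM.mono h hST
  union' := fun h h' => OR.UDM.union h h'
  le' := fun h hS => OR.UDM.le h hS
  empty' := fun hε => OR.UDM.empty hε
  densp' := fun c hc ε hε => OR.densp_M M hM c hc ε hε
  hit' := fun P hP hroot ε hε => OR.hit_eval hM P hP hroot ε hε

/-- sets of density zero for all abstract densities are pronull -/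
theorem proNull_of {ι : Type} [Fintype ι] {B : Set (ι → ℤ)} (h : ∀ [Sm ι], D0 B) : ProNull B := by
  intro M hM ε hε
  let _ : Sm ι := smPro ι M hM
  exact h ε hε

/-- reindexing -/
theorem proNull_comp {ι κ : Type} [Fintype ι] [Fintype κ] (f : ι → κ) (hf : Function.Injective f)
    {B : Set (ι → ℤ)} (h : ProNull B) : ProNull {c : κ → ℤ | (fun i => c (f i)) ∈ B} :=
  (Pool.Agent.N24.RW.clo ι).2.2.2.2 κ f hf B h

theorem proNull_mono {ι : Type} [Fintype ι] {A B : Set (ι → ℤ)} (h : ProNull B) (hAB : A ⊆ B) :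
    ProNull A := (Pool.Agent.N24.RW.clo ι).1 A B hAB h

section

variable {N d m : ℕ} {F : Fin (N + 1) → MvPolynomial (Fin (N + 1)) (MvPolynomial (Fin m) ℚ)}

/-- (copy of `Pool.Agent.N455.TX.coeffs`) -/
theorem coeffs (hF : ∀ i, (F i).IsHomogeneous d)
    (hmor : MorP fun i => (F i).map (algebraMap (MvPolynomial (Fin m) ℚ)
      (FractionRing (MvPolynomial (Fin m) ℚ)))) :
    ∃ (v : Idx (N + 1) d → MvPolynomial (Fin m) ℚ) (s : ℕ),
      (∀ {S : Type} [CommRing S] (φ : MvPolynomial (Fin m) ℚ →+* S),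
        (fun i => (F i).map φ) = sy fun i => φ (v i)) ∧
      MonIn s (sy fun i => algebraMap (MvPolynomial (Fin m) ℚ)
        (FractionRing (MvPolynomial (Fin m) ℚ)) (v i)) := by
  obtain ⟨v, hv⟩ : ∃ v : Idx (N + 1) d → MvPolynomial (Fin m) ℚ,
    v = fun i => coeff (expo i.2) (F i.1) := ⟨_, rfl⟩
  have hFv : F = sy v := by
    rw [hv]
    funext i
    exact (form_coeff (hF i)).symm
  have hmap : ∀ {S : Type} [CommRing S] (φ : MvPolynomial (Fin m) ℚ →+* S),
      (fun i => (F i).map φ) = sy fun i => φ (v i) := by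
    intro S _ φ
    rw [hFv]
    exact Pool.Agent.W193.UB.map_sy φ v
  rw [hmap] at hmor
  obtain ⟨vK, hvK⟩ : ∃ vK : Idx (N + 1) d → KF ℚ m,
    vK = fun i => algebraMap (RR ℚ m) (KF ℚ m) (v i) := ⟨_, rfl⟩
  obtain ⟨s, c, hc, hMC⟩ := exists_monC (algebraMap (KF ℚ m)
    (AlgebraicClosure (KF ℚ m))) vK (by
      intro x hx
      apply hmor x
      intro i
      have h1 := hx i
      rw [hvK, ← Pool.Agent.W193.UB.map_sy, eval_map] at h1
      rw [aeval_def]
      exact h1)
  have hc0 : c ≠ 0 := by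
    rintro rfl
    exact hc (map_zero _)
  have hM : MonIn s (sy vK) := hMC.monIn (isUnit_iff_ne_zero.2 hc0)
  rw [hvK] at hM
  exact ⟨v, s, hmap, hM⟩

theorem spec_P (hd : 2 ≤ d) (hF : ∀ i, (F i).IsHomogeneous d)
    (hmor : MorP fun i => (F i).map (algebraMap (MvPolynomial (Fin m) ℚ)
      (FractionRing (MvPolynomial (Fin m) ℚ)))) {r : ℕ}
    {x : Fin r → Fin (N + 1) → MvPolynomial (Fin m) ℚ} {σ : Fin r → Fin r}
    (hport : PortO (fun i => (F i).map (algebraMap (MvPolynomial (Fin m) ℚ)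
        (FractionRing (MvPolynomial (Fin m) ℚ)))) (fun i j => algebraMap (MvPolynomial (Fin m) ℚ)
        (FractionRing (MvPolynomial (Fin m) ℚ)) (x i j)) σ) :
    ProNull {v : Fin m → ℤ | ¬ (
        MorP (fun i => (F i).map (MvPolynomial.eval fun l : Fin m => (v l : ℚ))) ∧
        PortO (fun i => (F i).map (MvPolynomial.eval fun l : Fin m => (v l : ℚ)))
          (fun i j => MvPolynomial.eval (fun l : Fin m => (v l : ℚ)) (x i j)) σ)} ∧
    ProNull {v : Fin (m + 1) → ℤ | ¬ (v 0 ≠ 0 ∧
        MorP (fun i => (F i).map (MvPolynomial.eval fun l : Fin m =>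
          (v l.succ : ℚ) / (v 0 : ℚ))) ∧
        PortO (fun i => (F i).map (MvPolynomial.eval fun l : Fin m =>
          (v l.succ : ℚ) / (v 0 : ℚ))) (fun i j => MvPolynomial.eval (fun l : Fin m =>
          (v l.succ : ℚ) / (v 0 : ℚ)) (x i j)) σ)} := by
  classical
  obtain ⟨v, s, hmap, hM⟩ := coeffs hF hmor
  rw [hmap] at hport
  have hport' := PortO.portrait (Pool.Agent.W193.UB.sy_hom _) hM hport
  have hmor' : ∀ (t : Fin m → ℚ) (s' : ℕ), MonIn s' (sy fun i => eval t (v i)) →
      MorP (fun i => (F i).map (MvPolynomial.eval t)) := by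
    intro t s' g2
    rw [hmap]
    intro x hx
    have g5 : MonIn s' (sy fun i => algebraMap ℚ (AlgebraicClosure ℚ) (eval t (v i))) :=
      monIn_map (algebraMap ℚ (AlgebraicClosure ℚ)) g2
    apply no_zero _ g5 x
    intro i
    have h1 := hx i
    rw [aeval_def] at h1
    rw [← Pool.Agent.W193.UB.map_sy, eval_map]
    exact h1
  constructor
  · have h2 := proNull_of fun {_} => port_iv (m := m) omQ hd v hM hport'
    have h3 := proNull_comp (κ := Fin m) (fun q : Fin m × Unit => q.1)
      (Equiv.prodUnique (Fin m) Unit).injective h2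
    refine proNull_mono h3 ?_
    intro u hn hcon
    apply hn
    obtain ⟨⟨s', g2⟩, g3⟩ := hcon
    set w : Fin m × Unit → ℤ := fun q => u q.1 with hw'
    have htp : (fun l : Fin m => ((u l : ℤ) : ℚ)) = iv omQ w := by
      funext l
      unfold iv
      rw [vec_omQ]
    rw [htp]
    refine ⟨hmor' _ s' g2, ?_⟩
    rw [hmap]
    exact g3.portO (Pool.Agent.W193.UB.sy_hom _) g2
  · have h2 := proNull_of fun {_} => port_tp (m := m) omQ hd v hM hport'
    have h3 := proNull_comp (κ := Fin (m + 1)) (fun q : Fin (m + 1) × Unit => q.1)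
      (Equiv.prodUnique (Fin (m + 1)) Unit).injective h2
    refine proNull_mono h3 ?_
    intro u hn hcon
    apply hn
    obtain ⟨g1, ⟨s', g2⟩, g3⟩ := hcon
    set w : Fin (m + 1) × Unit → ℤ := fun q => u q.1 with hw'
    have htp : (fun l : Fin m => ((u l.succ : ℤ) : ℚ) / ((u 0 : ℤ) : ℚ)) = tp omQ w := by
      funext l
      unfold tp
      rw [vec_omQ, vec_omQ]
    rw [htp]
    refine ⟨?_, hmor' _ s' g2, ?_⟩
    · intro h0
      apply g1
      have h3 := vec_omQ w (0 : Fin (m + 1))
      rw [show w (0, ()) = 0 from h0, Int.cast_zero, FaithfulSMul.algebraMap_eq_zero_iff] at h3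
      exact h3
    · rw [hmap]
      exact g3.portO (Pool.Agent.W193.UB.sy_hom _) g2

end

end Pool.Agent.N891.OY
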