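import Pool.Agent.N891.OR.B8
import Pool.Agent.Y706.G14
set_option autoImplicit false

/-! Points of the generic member give points of the special members. -/

namespace Pool.Agent.N891.OX
open Pool.Agent.Y706

open MvPolynomial Pool.Agent.H936R2 Pool.Agent.H927R2.RD H294UB Pool.Agent.W275.UB
  Pool.Agent.W193.UB Pool.Agent.W554.UB NumberField

theorem lowerB {k : Type} [Field k] [NumberField k] {ι J : Type} [Fintype ι] [Fintype J] [Sm (ι × J)]
    (ω : Module.Basis J ℤ (𝓞 k)) (kb : Type) [Field kb] [Algebra k kb] [IsAlgClosed kb]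
    {n d B C : ℕ} (a : Idx n d → MvPolynomial ι (𝓞 k))
    (h : ¬ FewB (AlgebraicClosure (FractionRing (MvPolynomial ι (𝓞 k)))) B C
      (fun i => algebraMap (MvPolynomial ι (𝓞 k)) (FractionRing (MvPolynomial ι (𝓞 k))) (a i))) :
    D0 {w : ι × J → ℤ | FewB kb B C (cf ω a w)} := by
  classical
  have : CharZero (FractionRing (MvPolynomial ι (𝓞 k))) :=
    charZero_of_injective_algebraMap (R := MvPolynomial ι (𝓞 k))
      (IsFractionRing.injective (MvPolynomial ι (𝓞 k)) (FractionRing (MvPolynomial ι (𝓞 k))))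
  by_contra hcon
  obtain ⟨U, hU, hUG⟩ := exu (ι × J) _ hcon
  let ψ : FractionRing (MvPolynomial ι (𝓞 k)) →+* UP U k := psiF ω dens hU
  let iO : Algebra (FractionRing (MvPolynomial ι (𝓞 k))) (UP U kb) :=
    ((jU (kb := kb) U).comp ψ).toAlgebra
  have hac : IsAlgClosed (UP U kb) := up_closed
  let τ : AlgebraicClosure (FractionRing (MvPolynomial ι (𝓞 k)))
    →ₐ[FractionRing (MvPolynomial ι (𝓞 k))] UP U kb := IsAlgClosed.lift
  have h1 := lift_up (kb := kb) ψ (τ : _ →+* UP U kb) (fun c => τ.commutes c)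
    (vw := fun i w => cf ω a w i) (fun i => by
      rw [psiF_algebraMap, rho_apply]
      rfl) h
  have h2 : ∀ᶠ w in (U : Filter (ι × J → ℤ)), FewB kb B C (cf ω a w) := hUG
  obtain ⟨w, hw1, hw2⟩ := (h1.and h2).exists
  exact hw1 hw2

end Pool.Agent.N891.OX
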