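import Pool.Agent.N891.OR.G14
import Pool.Agent.Y706.G16
set_option autoImplicit false

/-! The specialisation theorem for families of endomorphisms of projective space. -/

namespace Pool.Agent.N891.OX
open Pool.Agent.Y706

open MvPolynomial Pool.Agent.H936R2 Pool.Agent.H927R2.RD H294UB Pool.Agent.W275.UB
  Pool.Agent.W193.UB Pool.Agent.W554.UB NumberField Filter Topology

section

variable {k : Type} [Field k] [NumberField k] {m : ℕ}

theorem lowerParam {J : Type} [Fintype J] [Sm (Fin (m + 1) × J)] (ω : Module.Basis J ℤ (𝓞 k)) (kb : Type) [Field kb]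
    [Algebra k kb] [IsAlgClosed kb] {N d B C₀ : ℕ} (v : Idx (N + 1) d → MvPolynomial (Fin m) k)
    (hgen : ¬ FewB (AlgebraicClosure (FractionRing (MvPolynomial (Fin m) k))) B C₀
      (fun i => algebraMap (MvPolynomial (Fin m) k) (FractionRing (MvPolynomial (Fin m) k)) (v i))) :
    D0 {w : Fin (m + 1) × J → ℤ | FewB kb B C₀ (fun i => eval (tp ω w) (v i))} := by
  classical
  obtain ⟨c, hc, hci⟩ := exists_mult v
  set e : ℕ := Finset.univ.sup fun i => (v i).totalDegree with he
  have hve : ∀ i, (v i).totalDegree ≤ e := fun i =>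
    Finset.le_sup (f := fun i => (v i).totalDegree) (Finset.mem_univ i)
  set A : Fin m → MvPolynomial (Fin (m + 1)) (𝓞 k) := fun l => X l.succ with hA
  set B₀ : MvPolynomial (Fin (m + 1)) (𝓞 k) := X 0 with hB₀
  set a : Idx (N + 1) d → MvPolynomial (Fin (m + 1)) (𝓞 k) := fun i => homm A B₀ c e (v i) with ha
  have hB₀0 : B₀ ≠ 0 := MvPolynomial.X_ne_zero 0
  have hBK : algebraMap (MvPolynomial (Fin (m + 1)) (𝓞 k)) (KK k (Fin (m + 1))) B₀ ≠ 0 := by
    rw [Ne, FaithfulSMul.algebraMap_eq_zero_iff]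
    exact hB₀0
  set u : KK k (Fin (m + 1)) := kap c *
    algebraMap (MvPolynomial (Fin (m + 1)) (𝓞 k)) (KK k (Fin (m + 1))) B₀ ^ e with hu
  have hu0 : u ≠ 0 := mul_ne_zero ((map_ne_zero kap).2 hc) (pow_ne_zero _ hBK)
  have haK : (fun i => algebraMap (MvPolynomial (Fin (m + 1)) (𝓞 k)) (KK k (Fin (m + 1))) (a i)) =
      fun i => u * TM k m (algebraMap (MvPolynomial (Fin m) k)
        (FractionRing (MvPolynomial (Fin m) k)) (v i)) := by
    funext i
    rw [ha]
    simp only
    rw [homm_map kap (algebraMap (MvPolynomial (Fin (m + 1)) (𝓞 k)) (KK k (Fin (m + 1)))) kap_spec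
      hBK (v i) (hve i) (hci i), TM_apply, aeval_kap]
    rfl
  have hgen' : ¬ FewB (AlgebraicClosure (KK k (Fin (m + 1)))) B C₀ (fun i =>
      algebraMap (MvPolynomial (Fin (m + 1)) (𝓞 k)) (KK k (Fin (m + 1))) (a i)) := by
    rw [haK]
    intro h
    exact hgen (fewB_sub (TM k m) (fewB_of_scale hu0 _ h))
  have h1 := (lowerB ω kb a hgen').union (D0_B ω hB₀0)
  intro ε hε
  refine (h1 ε hε).mono ?_
  intro w hw
  by_contra hcon
  rw [Set.mem_union, not_or] at hcon
  obtain ⟨hcon1, hcon2⟩ := hcon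
  have hBw : sp ω w B₀ ≠ 0 := by
    rw [sp, RingHom.comp_apply, Ne, FaithfulSMul.algebraMap_eq_zero_iff]
    exact hcon2
  have hspX : ∀ i : Fin (m + 1), sp ω w (X i) = algebraMap (𝓞 k) k (vec ω w i) := by
    intro i
    rw [sp, RingHom.comp_apply, MvPolynomial.eval_X]
  have hspec : ∀ y, sp ω w (MvPolynomial.C y : MvPolynomial (Fin (m + 1)) (𝓞 k)) =
      (RingHom.id k) (algebraMap (𝓞 k) k y) := by
    intro y
    rw [sp, RingHom.comp_apply, MvPolynomial.eval_C, RingHom.id_apply]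
  have hcf : cf ω a w = fun i => (c * sp ω w B₀ ^ e) * eval (tp ω w) (v i) := by
    funext i
    show sp ω w (homm A B₀ c e (v i)) = _
    rw [homm_map (RingHom.id k) (sp ω w) hspec hBw (v i) (hve i) (hci i), RingHom.id_apply]
    congr 1
    have h2 : (fun l => sp ω w (A l) / sp ω w B₀) = tp ω w := by
      funext l
      rw [hA, hB₀]
      simp only
      rw [hspX, hspX]
      rfl
    rw [h2]
    rfl
  have hc0 : c * sp ω w B₀ ^ e ≠ 0 := mul_ne_zero hc (pow_ne_zero _ hBw)
  apply hcon1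
  show FewB kb B C₀ (cf ω a w)
  rw [hcf]
  exact fewB_scale hc0 _ hw

end

end Pool.Agent.N891.OX
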