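import Pool.Agent.N891.OR.G16
import Pool.Agent.N891.OR.Inst
import Pool.Agent.Y706.G16

set_option autoImplicit false

/-! The specialisation theorem for families of endomorphisms of projective space, for abstract
densities (after Y706.main5), and its application to pronull sets. -/

namespace Pool.Agent.N891.OX
open Pool.Agent.Y706

open MvPolynomial Pool.Agent.H936R2 Pool.Agent.H927R2.RD H294UB Pool.Agent.W275.UB
  Pool.Agent.W193.UB Pool.Agent.W554.UB NumberField Filter Topology

section

/-- **The number of the preperiodic points of degree at most `B` of 100% of the members of a family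
of endomorphisms of projective space is equal to that of the generic member, which is finite.** -/
theorem main5D (k : Type) [Field k] [NumberField k] (J : Type) [Fintype J]
    (ω : Module.Basis J ℤ (𝓞 k)) (N d : ℕ) (hd : 2 ≤ d) (m : ℕ) [Sm (Fin (m + 1) × J)]
    (F : Fin (N + 1) → MvPolynomial (Fin (N + 1)) (MvPolynomial (Fin m) k))
    (hF : ∀ i, (F i).IsHomogeneous d)
    (hmor : MorP fun i => (F i).map (algebraMap (MvPolynomial (Fin m) k)
      (FractionRing (MvPolynomial (Fin m) k)))) (B : ℕ) :
    (preP (fun i => (F i).map (algebraMap (MvPolynomial (Fin m) k)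
      (FractionRing (MvPolynomial (Fin m) k)))) B).Finite ∧
    D0 {w : Fin (m + 1) × J → ℤ | ¬ (vec ω w 0 ≠ 0 ∧
          MorP (fun i => (F i).map (MvPolynomial.eval (tp ω w))) ∧
          (preP (fun i => (F i).map (MvPolynomial.eval (tp ω w))) B).encard =
          (preP (fun i => (F i).map (algebraMap (MvPolynomial (Fin m) k)
            (FractionRing (MvPolynomial (Fin m) k)))) B).encard)} := by
  classical
  set R := MvPolynomial (Fin m) k with hR
  set v : Idx (N + 1) d → R := fun i => coeff (expo i.2) (F i.1) with hv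
  have hFv : F = sy v := by
    funext i
    exact (form_coeff (hF i)).symm
  have hmap : ∀ {S : Type} [CommRing S] (φ : R →+* S),
      (fun i => (F i).map φ) = sy fun i => φ (v i) := by
    intro S _ φ
    rw [hFv]
    exact Pool.Agent.W193.UB.map_sy φ v
  rw [hmap] at hmor ⊢
  set vK : Idx (N + 1) d → FractionRing R := fun i => algebraMap R (FractionRing R) (v i) with hvK
  -- the generic member
  obtain ⟨s, c, hc, hMC⟩ := exists_monC (algebraMap (FractionRing R)
    (AlgebraicClosure (FractionRing R))) vK (by
      intro x hx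
      apply hmor x
      intro i
      have h1 := hx i
      rw [← Pool.Agent.W193.UB.map_sy, eval_map] at h1
      rw [aeval_def]
      exact h1)
  have hc0 : c ≠ 0 := by
    rintro rfl
    exact hc (map_zero _)
  have hM : MonIn s (sy vK) := hMC.monIn (isUnit_iff_ne_zero.2 hc0)
  obtain ⟨C, hC⟩ := np_RF (k := k) m N d s vK hd hM B
  have hfew := hC (AlgebraicClosure (FractionRing R))
  have hle := (few_iff hM B C).1 hfew
  have hfin : (preP (sy vK) B).Finite :=
    Set.encard_lt_top_iff.1 (hle.trans_lt (ENat.natCast_lt_top C))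
  obtain ⟨n, hn⟩ : ∃ n : ℕ, (preP (sy vK) B).encard = (n : ℕ∞) :=
    ⟨_, hfin.encard_eq_coe_toFinset_card⟩
  refine ⟨hfin, ?_⟩
  have hup : FewB (AlgebraicClosure (FractionRing R)) B n vK := (few_iff hM B n).2 hn.le
  have h3 := paramB ω (AlgebraicClosure k) hd v hM hup
  have h4 : D0 {w : Fin (m + 1) × J → ℤ | 1 ≤ n ∧
      FewB (AlgebraicClosure k) B (n - 1) (fun i => eval (tp ω w) (v i))} := by
    by_cases hn1 : 1 ≤ n
    · have h5 : ¬ FewB (AlgebraicClosure (FractionRing R)) B (n - 1) vK := by
        intro h6
        have h7 := (few_iff hM B (n - 1)).1 h6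
        rw [hn] at h7
        have h8 : n ≤ n - 1 := by exact_mod_cast h7
        omega
      have h6 := lowerParam ω (AlgebraicClosure k) v h5
      intro ε hε
      exact (h6 ε hε).mono fun w hw => hw.2
    · intro ε hε
      exact (D0.empty ε hε).mono fun w hw => absurd hw.1 hn1
  intro ε hε
  refine ((h3.union h4) ε hε).mono ?_
  intro w hw
  by_contra hcon
  rw [Set.mem_union, not_or] at hcon
  obtain ⟨hcon1, hcon2⟩ := hcon
  apply hw
  have hcon1' : vec ω w 0 ≠ 0 ∧ (∃ s, MonIn s (sy fun i => eval (tp ω w) (v i))) ∧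
      FewB (AlgebraicClosure k) B n (fun i => eval (tp ω w) (v i)) := by
    by_contra h5
    exact hcon1 h5
  obtain ⟨g1, ⟨s', g2⟩, g3⟩ := hcon1'
  have g4 : ¬ (1 ≤ n ∧ FewB (AlgebraicClosure k) B (n - 1) (fun i => eval (tp ω w) (v i))) := hcon2
  refine ⟨g1, ?_, ?_⟩
  · show MorP (fun i => (F i).map (MvPolynomial.eval (tp ω w)))
    rw [hmap]
    intro x hx
    have g5 : MonIn s' (sy fun i => algebraMap k (AlgebraicClosure k) (eval (tp ω w) (v i))) :=
      monIn_map (algebraMap k (AlgebraicClosure k)) g2
    apply no_zero _ g5 x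
    intro i
    have h1 := hx i
    rw [aeval_def] at h1
    rw [← Pool.Agent.W193.UB.map_sy, eval_map]
    exact h1
  · show (preP (fun i => (F i).map (MvPolynomial.eval (tp ω w))) B).encard = _
    rw [hmap, hn]
    apply le_antisymm
    · exact (few_iff g2 B n).1 g3
    · by_contra hlt
      push Not at hlt
      apply g4
      have hn1 : 1 ≤ n := by
        by_contra h0
        have h1 : n = 0 := by omega
        rw [h1] at hlt
        simp at hlt
      refine ⟨hn1, (few_iff g2 B (n - 1)).2 ?_⟩
      have h5 : ((n - 1 : ℕ) : ℕ∞) + 1 = (n : ℕ∞) := by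
        norm_cast
        omega
      rw [← h5] at hlt
      exact Order.le_of_lt_add_one hlt

/-- the pronull density at the primes that do not divide `M` -/
@[reducible] def smPro (ι : Type) [Fintype ι] (M : ℕ) (hM : 0 < M) : Sm ι where
  UD := OR.UDM M
  mono' := fun h hST => OR.UDM.mono h hST
  union' := fun h h' => OR.UDM.union h h'
  le' := fun h hS => OR.UDM.le h hS
  empty' := fun hε => OR.UDM.empty hε
  densp' := fun c hc ε hε => OR.densp_M M hM c hc ε hε
  hit' := fun P hP hroot ε hε => OR.hit_eval hM P hP hroot ε hε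

/-- sets of density zero for all abstract densities are pronull -/
theorem proNull_of {ι : Type} [Fintype ι] {B : Set (ι → ℤ)} (h : ∀ [Sm ι], D0 B) :
    Pool.Agent.N24.RW.ProNull B := by
  intro M hM ε hε
  let _ : Sm ι := smPro ι M hM
  exact h ε hε

theorem main5P (k : Type) [Field k] [NumberField k] (J : Type) [Fintype J]
    (ω : Module.Basis J ℤ (𝓞 k)) (N d : ℕ) (hd : 2 ≤ d) (m : ℕ)
    (F : Fin (N + 1) → MvPolynomial (Fin (N + 1)) (MvPolynomial (Fin m) k))
    (hF : ∀ i, (F i).IsHomogeneous d)
    (hmor : MorP fun i => (F i).map (algebraMap (MvPolynomial (Fin m) k)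
      (FractionRing (MvPolynomial (Fin m) k)))) (B : ℕ) :
    (preP (fun i => (F i).map (algebraMap (MvPolynomial (Fin m) k)
      (FractionRing (MvPolynomial (Fin m) k)))) B).Finite ∧
    Pool.Agent.N24.RW.ProNull {w : Fin (m + 1) × J → ℤ | ¬ (vec ω w 0 ≠ 0 ∧
          MorP (fun i => (F i).map (MvPolynomial.eval (tp ω w))) ∧
          (preP (fun i => (F i).map (MvPolynomial.eval (tp ω w))) B).encard =
          (preP (fun i => (F i).map (algebraMap (MvPolynomial (Fin m) k)
            (FractionRing (MvPolynomial (Fin m) k)))) B).encard)} := by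
  refine ⟨?_, proNull_of fun {_} => (main5D k J ω N d hd m F hF hmor B).2⟩
  let _ : Sm (Fin (m + 1) × J) := smPro _ 1 one_pos
  exact (main5D k J ω N d hd m F hF hmor B).1

end

end Pool.Agent.N891.OX
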