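import Pool.Agent.N891.OR.Sm
import Pool.Agent.Y706.Rac2

set_option autoImplicit false

/-! Ultrapowers of number fields over sets of integer points. -/

namespace Pool.Agent.N891.OX

open MvPolynomial Pool.Agent.W275.UB Pool.Agent.Y706

section ev

variable {ι : Type} [Sm ι] (U : Ultrafilter (ι → ℤ)) (k : Type) [Field k]

variable {U k}

lemma gen_ne_zero [Fintype ι] (hd : S_dens) (hU : Gen U) {c : MvPolynomial ι ℤ}
    (hc : c ≠ 0) : ∀ᶠ v in (U : Filter (ι → ℤ)), eval v c ≠ 0 := by
  exact hU _ fun ε hε => hd ι c hc ε hε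

lemma evk_inj [Fintype ι] [CharZero k] (hd : S_dens) (hU : Gen U) :
    Function.Injective (evk U k) := by
  rw [injective_iff_map_eq_zero]
  intro c hc
  by_contra hne
  have h1 := gen_ne_zero hd hU hne
  rw [evk_def, up_eq_zero] at hc
  obtain ⟨v, hv1, hv2⟩ := (hc.and h1).exists
  exact hv2 (by exact_mod_cast hv1)

end ev

end Pool.Agent.N891.OX
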