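import Pool.Agent.W410.UB.Urel
import Pool.Agent.W177.UB.Gen
import Pool.Agent.W505.UB.GenT
import Pool.Agent.W275.UB.Fin

/-!
# Abstract notions of density with Hilbert's irreducibility theorem (helper455)

The statements of project UB (`Pool.Agent.W275.UB`) for the density in boxes, for an arbitrary notion of
upper density at most `ε` of sets of integral vectors which satisfies the properties used there
(class `Sm`).
-/

set_option autoImplicit false
set_option linter.unusedSectionVars false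

namespace Pool.Agent.N891.OX

open MvPolynomial
open Pool.Agent.W275.UB hiding UD D0 Gen S_dens S_densp S_hit S_exu S_urel S_gen S_genT S_type

/-- a notion of upper density for sets of integral vectors, for which Hilbert's irreducibility theorem
holds -/
class Sm (ι : Type) where
  /-- upper density at most `ε` -/
  UD : ℝ → Set (ι → ℤ) → Prop
  mono' : ∀ {ε : ℝ} {S T : Set (ι → ℤ)}, UD ε T → S ⊆ T → UD ε S
  union' : ∀ {ε ε' : ℝ} {S T : Set (ι → ℤ)}, UD ε S → UD ε' T → UD (ε + ε') (S ∪ T)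
  le' : ∀ {ε δ : ℝ} {S : Set (ι → ℤ)}, ε ≤ δ → UD ε S → UD δ S
  empty' : ∀ {ε : ℝ}, 0 < ε → UD ε ∅
  densp' : ∀ c : MvPolynomial ι ℤ, c ≠ 0 → ∀ ε : ℝ, 0 < ε →
    ∃ P₀ : ℕ, ∀ p : ℕ, p.Prime → P₀ ≤ p → UD ε {v : ι → ℤ | (p : ℤ) ∣ eval v c}
  hit' : ∀ P : Polynomial (MvPolynomial ι ℤ), P.Monic → (∀ a, P.eval a ≠ 0) → ∀ ε : ℝ, 0 < ε →
    UD ε {v : ι → ℤ | ∃ T : ℤ, (P.map (eval v)).eval T = 0}

/-- upper density at most `ε` -/
def UD {ι : Type} [Sm ι] (ε : ℝ) (S : Set (ι → ℤ)) : Prop := Sm.UD ε S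

/-- density zero -/
def D0 {ι : Type} [Sm ι] (S : Set (ι → ℤ)) : Prop := ∀ ε : ℝ, 0 < ε → UD ε S

/-- the zeros of a nonzero polynomial -/
def S_dens : Prop := ∀ (ι : Type) [Fintype ι] [Sm ι] (c : MvPolynomial ι ℤ), c ≠ 0 →
  ∀ ε : ℝ, 0 < ε → UD ε {v : ι → ℤ | eval v c = 0}

def S_densp : Prop := ∀ (ι : Type) [Fintype ι] [Sm ι] (c : MvPolynomial ι ℤ), c ≠ 0 →
  ∀ ε : ℝ, 0 < ε → ∃ P₀ : ℕ, ∀ p : ℕ, p.Prime → P₀ ≤ p → UD ε {v : ι → ℤ | (p : ℤ) ∣ eval v c}

/-- the ultrafilter does not contain sets of density zero -/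
def Gen {ι : Type} [Fintype ι] [Sm ι] (U : Ultrafilter (ι → ℤ)) : Prop :=
  ∀ S : Set (ι → ℤ), (∀ ε : ℝ, 0 < ε → UD ε S) → Sᶜ ∈ U

def S_exu : Prop := ∀ (ι : Type) [Fintype ι] [Sm ι] (S : Set (ι → ℤ)),
  ¬ (∀ ε : ℝ, 0 < ε → UD ε S) → ∃ U : Ultrafilter (ι → ℤ), Gen U ∧ S ∈ U

def S_urel : Prop := ∀ (ι : Type) [Fintype ι] [Sm ι] (U : Ultrafilter (ι → ℤ)), Gen U →
  ∀ (T : (ι → ℤ) → ℚ) (G : Polynomial (MvPolynomial ι ℤ)), G ≠ 0 →
  (∀ᶠ v in (U : Filter (ι → ℤ)),
    (G.map ((Int.castRingHom ℚ).comp (eval v))).eval (T v) = 0) →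
  ∃ a b : MvPolynomial ι ℤ, b ≠ 0 ∧
    ∀ᶠ v in (U : Filter (ι → ℤ)), ((eval v b : ℤ) : ℚ) * T v = ((eval v a : ℤ) : ℚ)

def S_gen : Prop := ∀ (ι : Type) [Fintype ι] [Sm ι] (n D : ℕ)
  (G : Set (MvPolynomial (Fin n) (MvPolynomial ι ℤ))) (h : MvPolynomial (Fin n) (MvPolynomial ι ℤ)),
  (∀ (Ω : Type) [Field Ω] [IsAlgClosed Ω] [Algebra (EE ι) Ω] (x : Fin n → Ω),
    (∀ g ∈ G, eval₂ (gn ι Ω) x g = 0) → ∀ j, IsAlgebraic (EE ι) (x j)) →
  ¬ (∀ ε : ℝ, 0 < ε → UD ε {v : ι → ℤ |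
    ∃ (K : Type) (_ : Field K) (_ : NumberField K) (x : Fin n → K), Module.finrank ℚ K ≤ D ∧
      (∀ g ∈ G, eval₂ ((Int.castRingHom K).comp (eval v)) x g = 0) ∧
      eval₂ ((Int.castRingHom K).comp (eval v)) x h ≠ 0}) →
  ∃ (L : Type) (_ : Field L) (_ : Algebra (EE ι) L) (x : Fin n → L),
    FiniteDimensional (EE ι) L ∧ Module.finrank (EE ι) L ≤ D ∧
    (∀ g ∈ G, eval₂ (gn ι L) x g = 0) ∧ eval₂ (gn ι L) x h ≠ 0

def S_genT : Prop := ∀ (ι τ : Type) [Fintype ι] [Sm ι] [Fintype τ] (D : ℕ)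
  (G : Set (MvPolynomial τ (MvPolynomial ι ℤ))) (h : MvPolynomial τ (MvPolynomial ι ℤ)),
  (∀ (Ω : Type) [Field Ω] [IsAlgClosed Ω] [Algebra (EE ι) Ω] (x : τ → Ω),
    (∀ g ∈ G, eval₂ (gn ι Ω) x g = 0) → ∀ j, IsAlgebraic (EE ι) (x j)) →
  ¬ (∀ ε : ℝ, 0 < ε → UD ε {v : ι → ℤ |
    ∃ (K : Type) (_ : Field K) (_ : NumberField K) (x : τ → K), Module.finrank ℚ K ≤ D ∧
      (∀ g ∈ G, eval₂ ((Int.castRingHom K).comp (eval v)) x g = 0) ∧
      eval₂ ((Int.castRingHom K).comp (eval v)) x h ≠ 0}) →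
  ∃ (L : Type) (_ : Field L) (_ : Algebra (EE ι) L) (x : τ → L),
    FiniteDimensional (EE ι) L ∧ Module.finrank (EE ι) L ≤ D ∧
    (∀ g ∈ G, eval₂ (gn ι L) x g = 0) ∧ eval₂ (gn ι L) x h ≠ 0

section basics

variable {ι : Type} [Sm ι]

lemma UD.mono {ε : ℝ} {S T : Set (ι → ℤ)} (h : UD ε T) (hST : S ⊆ T) : UD ε S := Sm.mono' h hST

lemma UD.union {ε ε' : ℝ} {S T : Set (ι → ℤ)} (h : UD ε S) (h' : UD ε' T) :
    UD (ε + ε') (S ∪ T) := Sm.union' h h'

lemma UD.le {ε δ : ℝ} (h : ε ≤ δ) {S : Set (ι → ℤ)} (hS : UD ε S) : UD δ S := Sm.le' h hS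

lemma D0.mono {S T : Set (ι → ℤ)} (h : D0 T) (hST : S ⊆ T) : D0 S := fun ε hε => (h ε hε).mono hST

lemma D0.union {S T : Set (ι → ℤ)} (h : D0 S) (h' : D0 T) : D0 (S ∪ T) := by
  intro ε hε
  have := (h (ε / 2) (by positivity)).union (h' (ε / 2) (by positivity))
  rwa [add_halves] at this

lemma D0.empty : D0 (∅ : Set (ι → ℤ)) := fun _ hε => Sm.empty' hε

lemma D0.biUnion {J : Type} (s : Finset J) (f : J → Set (ι → ℤ)) (h : ∀ j ∈ s, D0 (f j)) :
    D0 (⋃ j ∈ s, f j) := by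
  classical
  induction s using Finset.induction_on with
  | empty => simpa using D0.empty
  | insert a s ha ih =>
    rw [Finset.set_biUnion_insert]
    exact (h a (Finset.mem_insert_self _ _)).union
      (ih fun j hj => h j (Finset.mem_insert_of_mem hj))

lemma UD.add_D0 {ε : ℝ} {S T : Set (ι → ℤ)} {δ : ℝ} (h : UD ε S) (h' : D0 T) (hδ : 0 < δ) :
    UD (ε + δ) (S ∪ T) := h.union (h' δ hδ)

end basics

theorem dens : S_dens := by
  intro ι _ _ c hc ε hε
  obtain ⟨P₀, hP₀⟩ := Sm.densp' c hc ε hε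
  obtain ⟨p, hpp, hp⟩ := Nat.exists_infinite_primes P₀
  refine UD.mono (hP₀ p hp hpp) ?_
  intro v hv
  have hv' : eval v c = 0 := hv
  change ((p : ℕ) : ℤ) ∣ eval v c
  rw [hv']
  exact dvd_zero _

theorem densp : S_densp := fun _ _ _ c hc ε hε => Sm.densp' c hc ε hε

lemma D0_zero (hdens : S_dens) {ι : Type} [Fintype ι] [Sm ι] (c : MvPolynomial ι ℤ) (hc : c ≠ 0) :
    D0 {v : ι → ℤ | eval v c = 0} := fun ε hε => hdens ι c hc ε hε

/-- the complements of the sets of density zero -/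
def FF (ι : Type) [Sm ι] : Filter (ι → ℤ) where
  sets := {A | D0 Aᶜ}
  univ_sets := by
    show D0 (Set.univᶜ : Set (ι → ℤ))
    rw [Set.compl_univ]
    exact D0.empty
  sets_of_superset := by
    intro A B hA hAB
    exact D0.mono hA (Set.compl_subset_compl.mpr hAB)
  inter_sets := by
    intro A B hA hB
    show D0 (A ∩ B)ᶜ
    rw [Set.compl_inter]
    exact D0.union hA hB

theorem exu : S_exu := by
  intro ι _ _ S hS
  have hne : (FF ι ⊓ Filter.principal S).NeBot := by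
    rw [Filter.inf_principal_neBot_iff]
    intro A hA
    by_contra h
    rw [Set.not_nonempty_iff_eq_empty] at h
    apply hS
    refine D0.mono (T := Aᶜ) hA ?_
    intro v hv hvA
    have : v ∈ A ∩ S := ⟨hvA, hv⟩
    rw [h] at this
    exact this
  refine ⟨Ultrafilter.of (FF ι ⊓ Filter.principal S), ?_, ?_⟩
  · intro T hT
    have h1 : Tᶜ ∈ FF ι := by
      show D0 Tᶜᶜ
      rw [compl_compl]
      exact hT
    exact Ultrafilter.of_le _ (Filter.mem_inf_of_left h1)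
  · exact Ultrafilter.of_le _ (Filter.mem_inf_of_right (Filter.mem_principal_self S))

section urel

open Pool.Agent.W410.UB.Urel (psi psi_apply eval₂_psi)

variable {ι : Type} [Fintype ι] [Sm ι]

theorem ne_zero_ev (hd : S_dens) {U : Ultrafilter (ι → ℤ)} (hU : Gen U) {c : MvPolynomial ι ℤ}
    (hc : c ≠ 0) : {v : ι → ℤ | eval v c = 0}ᶜ ∈ U := hU _ (D0_zero hd c hc)

theorem psi_inj (hd : S_dens) {U : Ultrafilter (ι → ℤ)} (hU : Gen U) :
    Function.Injective (psi U) := by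
  rw [injective_iff_map_eq_zero]
  intro c hc
  by_contra hne
  have h1 := ne_zero_ev hd hU hne
  rw [psi_apply, ← Filter.Germ.coe_zero, Filter.Germ.coe_eq] at hc
  have h2 : {v : ι → ℤ | eval v c = 0} ∈ U := by
    filter_upwards [hc] with v hv
    have : ((eval v c : ℤ) : ℚ) = 0 := hv
    exact_mod_cast this
  have h3 := Filter.inter_mem h1 h2
  rw [Set.compl_inter_self] at h3
  exact Filter.empty_notMem _ h3

theorem urel : S_urel := by
  intro ι _ _ U hU T G hG hev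
  have hd := dens
  classical
  let : Algebra (MvPolynomial ι ℤ) ((U : Filter (ι → ℤ)).Germ ℚ) := (psi U).toAlgebra
  have hinj : Function.Injective (algebraMap (MvPolynomial ι ℤ) ((U : Filter (ι → ℤ)).Germ ℚ)) :=
    psi_inj hd hU
  have : FaithfulSMul (MvPolynomial ι ℤ) ((U : Filter (ι → ℤ)).Germ ℚ) :=
    (faithfulSMul_iff_algebraMap_injective _ _).mpr hinj
  let := FractionRing.liftAlgebra (MvPolynomial ι ℤ) ((U : Filter (ι → ℤ)).Germ ℚ)
  have := FractionRing.isScalarTower_liftAlgebra (MvPolynomial ι ℤ)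
    ((U : Filter (ι → ℤ)).Germ ℚ)
  set t : (U : Filter (ι → ℤ)).Germ ℚ := (T : (U : Filter (ι → ℤ)).Germ ℚ) with ht
  have halg : IsAlgebraic (MvPolynomial ι ℤ) t := by
    refine ⟨G, hG, ?_⟩
    rw [Polynomial.aeval_def]
    refine (eval₂_psi U G T).trans ?_
    rw [← Filter.Germ.coe_zero, Filter.Germ.coe_eq]
    exact hev
  obtain ⟨b, hb, hint⟩ := halg.exists_integral_multiple
  set P := minpoly (MvPolynomial ι ℤ) (b • t) with hP
  have hmon : P.Monic := minpoly.monic hint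
  have hPK : minpoly (EE ι) (b • t) = P.map (algebraMap (MvPolynomial ι ℤ) (EE ι)) :=
    minpoly.isIntegrallyClosed_eq_field_fractions' (EE ι) hint
  have hintK : IsIntegral (EE ι) (b • t) := hint.tower_top
  have hirr : Irreducible (P.map (algebraMap (MvPolynomial ι ℤ) (EE ι))) := by
    rw [← hPK]
    exact minpoly.irreducible hintK
  -- the values
  have hbt : b • t = ((fun v => ((eval v b : ℤ) : ℚ) * T v : (ι → ℤ) → ℚ) :
      (U : Filter (ι → ℤ)).Germ ℚ) := by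
    rw [Algebra.smul_def]
    rfl
  have hroot : ∀ᶠ v in (U : Filter (ι → ℤ)),
      (P.map ((Int.castRingHom ℚ).comp (eval v))).eval (((eval v b : ℤ) : ℚ) * T v) = 0 := by
    have h1 : Polynomial.aeval (b • t) P = 0 := minpoly.aeval _ _
    rw [Polynomial.aeval_def, hbt] at h1
    have h2 := (eval₂_psi U P (fun v => ((eval v b : ℤ) : ℚ) * T v)).symm.trans h1
    rw [← Filter.Germ.coe_zero, Filter.Germ.coe_eq] at h2
    exact h2
  have hB : ∀ᶠ v in (U : Filter (ι → ℤ)), ∃ T' : ℤ, (P.map (eval v)).eval T' = 0 := by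
    filter_upwards [hroot] with v hv
    have hm : (P.map (eval v)).Monic := hmon.map _
    have h1 : Polynomial.aeval (((eval v b : ℤ) : ℚ) * T v) (P.map (eval v)) = 0 := by
      rw [Polynomial.aeval_def, Polynomial.eval₂_map]
      rw [Polynomial.eval_map] at hv
      exact hv
    obtain ⟨z, hz⟩ := isInteger_of_is_root_of_monic hm h1
    refine ⟨z, ?_⟩
    rw [← hz, Polynomial.aeval_algebraMap_apply, Polynomial.coe_aeval_eq_eval, eq_intCast] at h1
    exact_mod_cast h1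
  -- the generic root
  obtain ⟨S, hS⟩ : ∃ S : MvPolynomial ι ℤ, P.eval S = 0 := by
    by_contra hcon
    push Not at hcon
    have h1 := hU _ (fun ε hε => Sm.hit' P hmon hcon ε hε)
    have h3 := Filter.inter_mem h1 hB
    rw [show ({v : ι → ℤ | ∃ T : ℤ, (P.map (eval v)).eval T = 0}ᶜ ∩
      {v : ι → ℤ | ∃ T' : ℤ, (P.map (eval v)).eval T' = 0}) = ∅ from Set.compl_inter_self _] at h3
    exact Filter.empty_notMem _ h3
  have hdeg : P.natDegree = 1 := by
    have hx : (P.map (algebraMap (MvPolynomial ι ℤ) (EE ι))).eval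
        (algebraMap (MvPolynomial ι ℤ) (EE ι) S) = 0 := by
      rw [Polynomial.eval_map, Polynomial.eval₂_at_apply, hS, map_zero]
    have h1 := Polynomial.degree_eq_one_of_irreducible_of_root hirr hx
    rw [hmon.degree_map] at h1
    exact Polynomial.natDegree_eq_of_degree_eq_some h1
  -- conclusion
  refine ⟨-P.coeff 0, b, hb, ?_⟩
  filter_upwards [hroot] with v hv
  have h1 : P = Polynomial.X + Polynomial.C (P.coeff 0) := hmon.eq_X_add_C hdeg
  rw [h1] at hv
  simp only [Polynomial.map_add, Polynomial.map_X, Polynomial.map_C, Polynomial.eval_add,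
    Polynomial.eval_X, Polynomial.eval_C, RingHom.comp_apply] at hv
  rw [map_neg, Int.cast_neg]
  have h2 : (Int.castRingHom ℚ) (eval v (P.coeff 0)) = ((eval v (P.coeff 0) : ℤ) : ℚ) := rfl
  rw [h2] at hv
  linarith

end urel

section gen

open Pool.Agent.W177.UB (Qb gen_aux)
open Filter

theorem gen : S_gen := by
  classical
  intro ι _ _ n D G h H1 H2
  obtain ⟨U, hU, hBad⟩ := exu ι _ H2
  have hd : ∀ c : MvPolynomial ι ℤ, c ≠ 0 → ∀ᶠ v in (U : Filter (ι → ℤ)), eval v c ≠ 0 :=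
    fun c hc => ne_zero_ev dens hU hc
  have hex : ∀ v : ι → ℤ, ∃ (F : IntermediateField ℚ Qb) (y : Fin n → Qb),
      v ∈ {v : ι → ℤ |
        ∃ (K : Type) (_ : Field K) (_ : NumberField K) (x : Fin n → K), Module.finrank ℚ K ≤ D ∧
        (∀ g ∈ G, eval₂ ((Int.castRingHom K).comp (eval v)) x g = 0) ∧
        eval₂ ((Int.castRingHom K).comp (eval v)) x h ≠ 0} →
      FiniteDimensional ℚ F ∧ Module.finrank ℚ F ≤ D ∧ (∀ k, y k ∈ F) ∧
      (∀ g ∈ G, eval₂ ((Int.castRingHom Qb).comp (eval v)) y g = 0) ∧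
      eval₂ ((Int.castRingHom Qb).comp (eval v)) y h ≠ 0 := by
    intro v
    by_cases hv : v ∈ {v : ι → ℤ |
        ∃ (K : Type) (_ : Field K) (_ : NumberField K) (x : Fin n → K), Module.finrank ℚ K ≤ D ∧
        (∀ g ∈ G, eval₂ ((Int.castRingHom K).comp (eval v)) x g = 0) ∧
        eval₂ ((Int.castRingHom K).comp (eval v)) x h ≠ 0}
    · obtain ⟨K, iF, iN, x, hD, hG, hh⟩ := hv
      let σ : K →ₐ[ℚ] Qb := IsAlgClosed.lift
      have e1 : (Int.castRingHom Qb).comp (eval v) =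
          (σ : K →+* Qb).comp ((Int.castRingHom K).comp (eval v)) := by
        rw [← RingHom.comp_assoc]
        congr 1
        exact RingHom.ext_int _ _
      have e2 : ∀ g, eval₂ ((Int.castRingHom Qb).comp (eval v)) (fun k => σ (x k)) g =
          σ (eval₂ ((Int.castRingHom K).comp (eval v)) x g) := by
        intro g
        rw [e1]
        exact (eval₂_comp_left (σ : K →+* Qb) ((Int.castRingHom K).comp (eval v)) x g).symm
      refine ⟨σ.fieldRange, fun k => σ (x k), fun _ => ⟨?_, ?_, fun k => ⟨x k, rfl⟩, ?_, ?_⟩⟩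
      · exact LinearEquiv.finiteDimensional
          (AlgEquiv.ofInjectiveField σ).toLinearEquiv
      · refine le_trans (le_of_eq ?_) hD
        exact (AlgEquiv.ofInjectiveField σ).toLinearEquiv.finrank_eq.symm
      · intro g hg
        rw [e2, hG g hg, map_zero]
      · rw [e2]
        intro h0
        exact hh ((map_eq_zero σ).mp h0)
    · exact ⟨⊥, fun _ => 0, fun h => absurd h hv⟩
  choose F y hFy using hex
  refine gen_aux ι U hd (urel ι U hU) n D G h H1 (fun k v => y v k) F ?_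
  filter_upwards [hBad] with v hv
  exact hFy v hv

theorem genT : S_genT := by
  intro ι τ _ _ _ D G h h1 h2
  let e : Fin (Fintype.card τ) ≃ τ := (Fintype.equivFin τ).symm
  have key : ∀ (S : Type) [CommRing S] (φ : MvPolynomial ι ℤ →+* S)
      (x' : Fin (Fintype.card τ) → S) (g : MvPolynomial τ (MvPolynomial ι ℤ)),
      eval₂ φ x' (rename e.symm g) = eval₂ φ (x' ∘ e.symm) g := by
    intro S _ φ x' g
    rw [eval₂_rename]
  have hA : ∀ (S : Type) [CommRing S] (φ : MvPolynomial ι ℤ →+* S)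
      (x' : Fin (Fintype.card τ) → S),
      (∀ g ∈ (rename e.symm '' G : Set (MvPolynomial (Fin (Fintype.card τ)) (MvPolynomial ι ℤ))),
        eval₂ φ x' g = 0) ↔ ∀ g ∈ G, eval₂ φ (x' ∘ e.symm) g = 0 := by
    intro S _ φ x'
    constructor
    · intro hh g hg
      rw [← key]
      exact hh _ ⟨g, hg, rfl⟩
    · rintro hh _ ⟨g, hg, rfl⟩
      rw [key]
      exact hh g hg
  have hx : ∀ (S : Type) (x : τ → S), (x ∘ e) ∘ e.symm = x := by
    intro S x
    funext t
    simp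
  obtain ⟨L, iL, iA, x', hfd, hfr, hz, hne⟩ := gen ι (Fintype.card τ) D
    (rename e.symm '' G) (rename e.symm h) (by
      intro Ω _ _ _ x' hx' j
      rw [hA] at hx'
      have := h1 Ω (x' ∘ e.symm) hx' (e j)
      simpa using this) (by
      intro hUD
      apply h2
      intro ε hε
      convert hUD ε hε using 2
      ext v
      constructor
      · rintro ⟨K, iK, iN, x, hK, hG, hh⟩
        refine ⟨K, iK, iN, x ∘ e, hK, ?_, ?_⟩
        · rw [hA, hx]
          exact hG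
        · rw [key, hx]
          exact hh
      · rintro ⟨K, iK, iN, x', hK, hG, hh⟩
        refine ⟨K, iK, iN, x' ∘ e.symm, hK, ?_, ?_⟩
        · rw [hA] at hG
          exact hG
        · rw [key] at hh
          exact hh)
  refine ⟨L, iL, iA, x' ∘ e.symm, hfd, hfr, ?_, ?_⟩
  · rw [hA] at hz
    exact hz
  · rw [key] at hne
    exact hne

end gen

end Pool.Agent.N891.OX
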