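import Pool.Agent.N891.OR.R4
import Pool.Agent.Y706.Tr
set_option autoImplicit false

/-! For 100% of the members of a family over a number field the rational preperiodic points are not
more than those of the generic member. -/

namespace Pool.Agent.N891.OX
open Pool.Agent.Y706

open MvPolynomial Pool.Agent.H936R2 Pool.Agent.H927R2.RD H294UB Pool.Agent.W275.UB
  Pool.Agent.W193.UB NumberField

set_option linter.unusedSectionVars false

section

variable {k : Type} [Field k] [NumberField k] {ι J : Type} [Fintype ι] [Fintype J] [Sm (ι × J)]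
  (ω : Module.Basis J ℤ (𝓞 k)) (U : Ultrafilter (ι × J → ℤ))

variable {U}

lemma rho_inj (hd : S_dens) (hU : Gen U) : Function.Injective (rho ω U) := by
  obtain ⟨j0⟩ : Nonempty J := ω.index_nonempty
  have h1 := (AlgebraicIndependent.sumElim_iff.1
    (indep_V hd hU (zk ω) j0 (zk_ne ω j0))).1
  intro a b hab
  rw [rho_eq, rho_eq] at hab
  exact MvPolynomial.map_injective _ (FaithfulSMul.algebraMap_injective (𝓞 k) k) (h1 hab)

/-- the generic field in the ultrapower -/
noncomputable def psiF (hd : S_dens) (hU : Gen U) :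
    FractionRing (MvPolynomial ι (𝓞 k)) →+* UP U k :=
  IsFractionRing.lift (rho_inj ω hd hU)

lemma psiF_algebraMap (hd : S_dens) (hU : Gen U) (r : MvPolynomial ι (𝓞 k)) :
    psiF ω hd hU (algebraMap _ _ r) = rho ω U r := IsFractionRing.lift_algebraMap _ _

lemma mem_range (hd : S_dens) (hU : Gen U) (x : UP U k)
    (hx : x ∈ IntermediateField.adjoin k (Set.range (Vk U (zk ω)))) :
    ∃ y, psiF ω hd hU y = x := by
  let G : IntermediateField k (UP U k) :=
    { (psiF ω hd hU).fieldRange with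
      algebraMap_mem' := by
        intro c
        obtain ⟨a, b, hb, rfl⟩ := IsFractionRing.div_surjective (A := 𝓞 k) c
        refine ⟨algebraMap _ _ (C a : MvPolynomial ι (𝓞 k)) /
          algebraMap _ _ (C b : MvPolynomial ι (𝓞 k)), ?_⟩
        rw [map_div₀, psiF_algebraMap, psiF_algebraMap, rho_C, rho_C, map_div₀] }
  have h : IntermediateField.adjoin k (Set.range (Vk U (zk ω))) ≤ G := by
    rw [IntermediateField.adjoin_le_iff]
    rintro _ ⟨i, rfl⟩
    exact ⟨algebraMap (MvPolynomial ι (𝓞 k)) (FractionRing (MvPolynomial ι (𝓞 k))) (X i),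
      (psiF_algebraMap ω hd hU (X i)).trans (rho_X ω U i)⟩
  exact h hx

variable (U)

end

section main

variable {k : Type} [Field k] [NumberField k] {ι J : Type} [Fintype ι] [Fintype J] [Sm (ι × J)]
  (ω : Module.Basis J ℤ (𝓞 k))

/-- the transfer to the generic member -/
theorem generic_pts (hitr : S_itr) (hcnt : TaskCnt) (hfin : S_fin) (hdens : S_dens)
    (hurel : S_urel) {N d s C e : ℕ} (hd : 2 ≤ d) (he : 0 < e)
    (a : Idx (N + 1) d → MvPolynomial ι (𝓞 k)) (c : MvPolynomial ι (𝓞 k)) (hc : c ≠ 0)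
    (hM : MonC s c (sy a)) (U : Ultrafilter (ι × J → ℤ)) (hU : Gen U)
    (x : (ι × J → ℤ) → Fin (C + 1) → Fin (N + 1) → k)
    (i0 : (ι × J → ℤ) → Fin (C + 1) → Fin (N + 1))
    (h : ∀ᶠ w in (U : Filter (ι × J → ℤ)), (∀ l, x w l (i0 w l) = 1) ∧
      (∀ l l' (c : k), x w l = c • x w l' → l = l') ∧
      ∀ l, ∃ c : k, c ≠ 0 ∧ (pt (sy (cf ω a w)))^[C + e] (x w l) =
        c • (pt (sy (cf ω a w)))^[C] (x w l)) :
    ¬ Few C (sy fun i => algebraMap (MvPolynomial ι (𝓞 k))
      (FractionRing (MvPolynomial ι (𝓞 k))) (a i)) := by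
  classical
  obtain ⟨j0⟩ : Nonempty J := ω.index_nonempty
  -- a constant normalised coordinate
  obtain ⟨m0, hm0⟩ : ∃ m0 : Fin (C + 1) → Fin (N + 1),
      ∀ᶠ w in (U : Filter (ι × J → ℤ)), i0 w = m0 := by
    obtain ⟨m0, hm⟩ := Ultrafilter.eq_pure_of_finite (U.map i0)
    refine ⟨m0, ?_⟩
    have h1 : {m0} ∈ U.map i0 := by
      rw [hm]
      exact Set.mem_singleton m0
    exact h1
  set A : Idx (N + 1) d → UP U k := fun i => rho ω U (a i) with hA
  let Xp : Fin (C + 1) → Fin (N + 1) → UP U k := fun l i => up U k fun w => x w l i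
  -- evaluation in the ultrapower
  have hit : ∀ (m : ℕ) (l : Fin (C + 1)), (pt (sy A))^[m] (Xp l) =
      fun i => up U k fun w => (pt (sy (cf ω a w)))^[m] (x w l) i := by
    intro m l
    let R := (ι × J → ℤ) → k
    let v : Idx (N + 1) d → R := fun i w => cf ω a w i
    let y : Fin (N + 1) → R := fun i w => x w l i
    have h1 := it_map (up U k) v y m
    have h2 : (fun i => (up U k) (v i)) = A := rfl
    rw [h2] at h1
    have h3 : (fun i => (up U k) (y i)) = Xp l := rfl
    rw [h3] at h1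
    rw [h1]
    funext i
    congr 1
    funext w
    have h4 := it_map (Pi.evalRingHom (fun _ : (ι × J → ℤ) => k) w) v y m
    exact (congrFun h4 i).symm
  have hX1 : ∀ l, Xp l (m0 l) = 1 := by
    intro l
    rw [← map_one (up U k)]
    refine up_eq.2 ?_
    filter_upwards [h, hm0] with w hw hw0
    rw [← hw0]
    exact hw.1 l
  have hXrel : ∀ l, ∃ c : UP U k, c ≠ 0 ∧
      (pt (sy A))^[C + e] (Xp l) = c • (pt (sy A))^[C] (Xp l) := by
    intro l
    have h5 : ∀ w, ∃ c : k, (((x w l (i0 w l) = 1) ∧ ∃ c : k, c ≠ 0 ∧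
        (pt (sy (cf ω a w)))^[C + e] (x w l) = c • (pt (sy (cf ω a w)))^[C] (x w l)) →
        c ≠ 0 ∧ (pt (sy (cf ω a w)))^[C + e] (x w l) = c • (pt (sy (cf ω a w)))^[C] (x w l)) := by
      intro w
      by_cases h6 : (x w l (i0 w l) = 1) ∧ ∃ c : k, c ≠ 0 ∧
        (pt (sy (cf ω a w)))^[C + e] (x w l) = c • (pt (sy (cf ω a w)))^[C] (x w l)
      · obtain ⟨_, c, hc⟩ := h6
        exact ⟨c, fun _ => hc⟩
      · exact ⟨0, fun h7 => absurd h7 h6⟩
    choose cc hcc using h5
    refine ⟨up U k cc, ?_, ?_⟩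
    · intro h0
      rw [up_eq_zero] at h0
      obtain ⟨w, hw, hw0⟩ := (h.and h0).exists
      exact (hcc w ⟨hw.1 l, hw.2.2 l⟩).1 hw0
    · rw [hit, hit]
      funext i
      rw [Pi.smul_apply, smul_eq_mul, ← map_mul]
      refine up_eq.2 ?_
      filter_upwards [h] with w hw
      have h8 := (hcc w ⟨hw.1 l, hw.2.2 l⟩).2
      exact congrFun h8 i
  -- algebraicity
  set F := IntermediateField.adjoin k (Set.range (Vk U (zk ω))) with hF
  have hAF : (fun i => algebraMap F (UP U k) (rhoF ω U (a i))) = A := rfl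
  have hMF : MonIn s (sy fun i => rhoF ω U (a i)) := by
    refine (hM.map (rhoF ω U)).monIn ?_
    rw [isUnit_iff_ne_zero]
    intro h0
    apply hc
    apply rho_inj ω hdens hU
    rw [map_zero]
    exact congrArg Subtype.val h0
  have halg : ∀ l i, IsAlgebraic F (Xp l i) := by
    intro l
    apply alg_pts hitr hcnt hfin hd he (fun i => rhoF ω U (a i)) hMF (Xp l) (m0 l) (hX1 l)
      (b := C) (e := e)
    rw [hAF]
    exact hXrel l
  have hmem : ∀ l i, ∃ y, psiF ω hdens hU y = Xp l i := fun l i =>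
    mem_range ω hdens hU _ (rac hdens hurel hU (zk ω) j0 (zk_ne ω j0) _ (halg l i))
  choose Y hY using hmem
  have hYX : ∀ l, (fun i => psiF ω hdens hU (Y l i)) = Xp l := fun l => funext fun i => hY l i
  -- the system over the generic field
  set B : Idx (N + 1) d → FractionRing (MvPolynomial ι (𝓞 k)) := fun i =>
    algebraMap (MvPolynomial ι (𝓞 k)) (FractionRing (MvPolynomial ι (𝓞 k))) (a i) with hB
  have hBA : (fun i => psiF ω hdens hU (B i)) = A := by
    funext i
    rw [hB, hA]
    exact psiF_algebraMap ω hdens hU (a i)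
  have hitB : ∀ (m : ℕ) (l : Fin (C + 1)), (fun i => psiF ω hdens hU ((pt (sy B))^[m] (Y l) i)) =
      (pt (sy A))^[m] (Xp l) := by
    intro m l
    have h9 := it_map (psiF ω hdens hU) B (Y l) m
    rw [hBA, hYX] at h9
    exact h9.symm
  have hMB : MonIn s (sy B) := by
    refine (hM.map (algebraMap (MvPolynomial ι (𝓞 k))
      (FractionRing (MvPolynomial ι (𝓞 k))))).monIn ?_
    rw [isUnit_iff_ne_zero, Ne, FaithfulSMul.algebraMap_eq_zero_iff]
    exact hc
  have hY1 : ∀ l, Y l (m0 l) = 1 := by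
    intro l
    apply (psiF ω hdens hU).injective
    rw [hY, hX1, map_one]
  have hY0 : ∀ l, Y l ≠ 0 := by
    intro l h0
    have := hY1 l
    rw [h0] at this
    exact zero_ne_one this
  have hYp : ∀ l l' (c : FractionRing (MvPolynomial ι (𝓞 k))), Y l = c • Y l' → l = l' := by
    intro l l' c hcY
    have h10 : Xp l = psiF ω hdens hU c • Xp l' := by
      rw [← hYX, ← hYX, hcY]
      funext i
      simp only [Pi.smul_apply, smul_eq_mul, map_mul]
    obtain ⟨cw, hcw⟩ := up_surj (psiF ω hdens hU c)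
    rw [← hcw] at h10
    have h11 : ∀ᶠ w in (U : Filter (ι × J → ℤ)), ∀ i, x w l i = cw w * x w l' i := by
      rw [Filter.eventually_all]
      intro i
      have h12 := congrFun h10 i
      rw [Pi.smul_apply, smul_eq_mul, ← map_mul] at h12
      exact up_eq.1 h12
    obtain ⟨w, hw, hw'⟩ := (h.and h11).exists
    exact hw.2.1 l l' (cw w) (funext hw')
  intro hfew
  have h13 := hfew (Finset.univ.image Y) (by
    intro y hy
    obtain ⟨l, _, rfl⟩ := Finset.mem_image.1 hy
    exact hY0 l) (by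
    intro y hy y' hy' c hcy
    obtain ⟨l, _, rfl⟩ := Finset.mem_image.1 hy
    obtain ⟨l', _, rfl⟩ := Finset.mem_image.1 hy'
    rw [hYp l l' c hcy]) (by
    intro y hy
    obtain ⟨l, _, rfl⟩ := Finset.mem_image.1 hy
    refine ⟨C, C + e, by omega, ?_⟩
    obtain ⟨c', hc', hrel⟩ := hXrel l
    rw [← hitB, ← hitB] at hrel
    obtain ⟨t, ht, hrel'⟩ := descend (psiF ω hdens hU)
      (iter_ne_zero _ hMB (Y l) (hY0 l) C) (iter_ne_zero _ hMB (Y l) (hY0 l) (C + e)) c'
      fun i => congrFun hrel i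
    exact ⟨t, ht.ne_zero, hrel'⟩)
  rw [Finset.card_image_of_injective, Finset.card_univ, Fintype.card_fin] at h13
  · omega
  · intro l l' hll
    exact hYp l l' 1 (by rw [one_smul]; exact hll)

end main

end Pool.Agent.N891.OX
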