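import Pool.Agent.N891.OR.T1
import Pool.Agent.Y706.Tr2
set_option autoImplicit false

/-! For 100% of the members of a family over a number field the rational preperiodic points are not
more than those of the generic member: assembly. -/

namespace Pool.Agent.N891.OX
open Pool.Agent.Y706

open MvPolynomial Pool.Agent.H936R2 Pool.Agent.H927R2.RD H294UB Pool.Agent.W275.UB
  Pool.Agent.W193.UB NumberField

section main

variable {k : Type} [Field k] [NumberField k] {ι J : Type} [Fintype ι] [Fintype J] [Sm (ι × J)]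
  (ω : Module.Basis J ℤ (𝓞 k))

theorem transfer0 (hitr : S_itr) (hred : S_red) (hlev : S_lev) (hcnt : TaskCnt) (hfin : S_fin)
    (hdens : S_dens) (hdensp : S_densp) (hexu : S_exu) (hurel : S_urel) {N d s C : ℕ} (hd : 2 ≤ d)
    (a : Idx (N + 1) d → MvPolynomial ι (𝓞 k)) (c : MvPolynomial ι (𝓞 k)) (hc : c ≠ 0)
    (hM : MonC s c (sy a))
    (hgen : Few C (sy fun i => algebraMap (MvPolynomial ι (𝓞 k))
      (FractionRing (MvPolynomial ι (𝓞 k))) (a i))) :
    D0 {w : ι × J → ℤ | ¬ (eval (vec ω w) c ≠ 0 ∧ Few C (sy (cf ω a w)))} := by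
  classical
  intro ε hε
  by_contra hcon
  set Bad : Set (ι × J → ℤ) := {w | ¬ (eval (vec ω w) c ≠ 0 ∧ Few C (sy (cf ω a w)))} with hBad
  obtain ⟨n, hn, hdvd⟩ := norm_poly ω c hc
  obtain ⟨P₀, hP₀⟩ := hdensp (ι × J) n hn (ε / 4) (by positivity)
  obtain ⟨p, hp, hpP⟩ := exists_prime_ge P₀
  obtain ⟨q, hq, hqP⟩ := exists_prime_ge (max P₀ (p + 1))
  have hpq : p ≠ q := by
    have := (le_max_right P₀ (p + 1)).trans hqP
    omega
  obtain ⟨Wp, hWp, hRp⟩ := hred p (Module.finrank ℚ k) (N + 1) hp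
  obtain ⟨Wq, hWq, hRq⟩ := hred q (Module.finrank ℚ k) (N + 1) hq
  set Bad' : Set (ι × J → ℤ) := {w | w ∈ Bad ∧ ¬ (p : ℤ) ∣ eval w n ∧ ¬ (q : ℤ) ∣ eval w n}
    with hBad'
  have hnot : ¬ (∀ ε : ℝ, 0 < ε → UD ε Bad') := by
    intro h0
    apply hcon
    have h1 := ((h0 (ε / 4) (by positivity)).union (hP₀ p hp hpP)).union
      (hP₀ q hq ((le_max_left _ _).trans hqP))
    refine UD.le (by linarith : ε / 4 + ε / 4 + ε / 4 ≤ ε) (h1.mono ?_)
    intro w hw
    by_cases h2 : (p : ℤ) ∣ eval w n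
    · exact Or.inl (Or.inr h2)
    · by_cases h3 : (q : ℤ) ∣ eval w n
      · exact Or.inr h3
      · exact Or.inl (Or.inl ⟨hw, h2, h3⟩)
  obtain ⟨U, hU, hUB⟩ := hexu (ι × J) Bad' hnot
  have key : ∀ w ∈ Bad', ∃ (x : Fin (C + 1) → Fin (N + 1) → k) (i0 : Fin (C + 1) → Fin (N + 1)),
      (∀ l, x l (i0 l) = 1) ∧ (∀ l l' (c : k), x l = c • x l' → l = l') ∧
      ∀ l, ∃ c : k, c ≠ 0 ∧ (pt (sy (cf ω a w)))^[C + Wp * Wq] (x l) =
        c • (pt (sy (cf ω a w)))^[C] (x l) := by
    rintro w ⟨hw, hwp, hwq⟩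
    have hm0 : eval w n ≠ 0 := by
      intro h0
      rw [h0] at hwp
      exact hwp (dvd_zero _)
    have hcw : eval (vec ω w) c ≠ 0 := by
      intro h0
      have h1 := hdvd w
      rw [h0, zero_dvd_iff] at h1
      exact hm0 (by exact_mod_cast h1)
    have hfew : ¬ Few C (sy (cf ω a w)) := fun h => hw ⟨hcw, h⟩
    have hMw : MonC s (eval (vec ω w) c) (sy fun i => eval (vec ω w) (a i)) :=
      hM.map (eval (vec ω w))
    have hMon : MonIn s (sy (cf ω a w)) := by
      refine (hMw.map (algebraMap (𝓞 k) k)).monIn ?_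
      rw [isUnit_iff_ne_zero, Ne, FaithfulSMul.algebraMap_eq_zero_iff]
      exact hcw
    refine many (Pool.Agent.W193.UB.sy_hom _) hMon C (Wp * Wq) ?_ hfew
    intro y hy m hm hper
    exact per_pq hitr hlev hp hq hpq hRp hRq le_rfl (algebraMap (𝓞 k) k)
      (fun i => eval (vec ω w) (a i)) (eval (vec ω w) c) hMw (eval w n) (hdvd w) hwp hwq hy hm hper
  choose! x i0 hx using key
  refine generic_pts ω hitr hcnt hfin hdens hurel hd (Nat.mul_pos hWp hWq) a c hc hM U hU x i0 ?_
    hgen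
  filter_upwards [hUB] with w hw
  exact hx w hw

/-- **Transfer.** If the generic member of a family of endomorphisms of projective space over a
number field `k` has at most `C` preperiodic points over the field of rational functions, then 100%
of the members have at most `C` preperiodic points over `k`. -/
theorem transfer {N d s C : ℕ} (hd : 2 ≤ d)
    (a : Idx (N + 1) d → MvPolynomial ι (𝓞 k)) (c : MvPolynomial ι (𝓞 k)) (hc : c ≠ 0)
    (hM : MonC s c (sy a))
    (hgen : Few C (sy fun i => algebraMap (MvPolynomial ι (𝓞 k))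
      (FractionRing (MvPolynomial ι (𝓞 k))) (a i))) :
    D0 {w : ι × J → ℤ | ¬ (eval (vec ω w) c ≠ 0 ∧ Few C (sy (cf ω a w)))} :=
  transfer0 ω W405.UB.main red lev (H294UB.taskCnt H294UB.taskFib) W125.UB.FinT.fin_main
    dens densp exu urel hd a c hc hM hgen

end main

end Pool.Agent.N891.OX
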