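import Pool.Agent.N891.OR.DensM
import Pool.Agent.N938.TD.Low

/-!
# Uniform boundedness of preperiodic points outside of pronull sets

The pronull density is a density in the sense of `Pool.Agent.N938.TD.Den` (helper938).
-/

set_option autoImplicit false

namespace Pool.Agent.N891.OYU

open MvPolynomial Pool.Agent.H936R2 Pool.Agent.H927R2.RD H294UB
open Pool.Agent.W275.UB hiding D0 UD bad1 typ2 bddO_of_type
open Pool.Agent.N938.TD
open Pool.Agent.N24.RW (ProNull)

/-- the pronull density at the primes that do not divide `M` -/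
def denPro (ι : Type) [Fintype ι] (M : ℕ) (hM : 0 < M) : Den ι where
  UD := OR.UDM M
  mono := fun h hST => OR.UDM.mono h hST
  union := fun h h' => OR.UDM.union h h'
  empty := fun hε => OR.UDM.empty hε
  densp := fun c hc ε hε => OR.densp_M M hM c hc ε hε
  hit := by
    intro P A B Δ hP _ _ hroot ε hε
    refine OR.hit_eval hM P hP (fun a ha => ?_) ε hε
    apply hroot (MvPolynomial.map (Int.castRingHom ℚ) a)
    rw [Polynomial.eval_map, Polynomial.eval₂_at_apply, ha, map_zero]

theorem hdens (ι : Type) [Fintype ι] (M : ℕ) (hM : 0 < M) : (denPro ι M hM).HDens := by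
  refine ⟨M + 1, fun c hc p hp hpM ε hε => OR.dens_M c hc p hp (fun h => ?_) ε hε⟩
  have := Nat.le_of_dvd hM h
  omega

/-- **one constant** -/
theorem uni (N d D : ℕ) (hd : 2 ≤ d) : ∃ C : ℕ,
    ∀ (O J : Type) [CommRing O] [IsDomain O] [Fintype J] (ω : Module.Basis J ℤ O),
      ProNull {w : Idx (N + 1) d × J → ℤ | ¬ BddO D C (Ph ω w)} := by
  obtain ⟨C, hC⟩ := Pool.Agent.N938.TD.final_order N d D hd
  exact ⟨C, fun O J _ _ _ ω M hM => hC O J ω (denPro _ M hM) (hdens _ M hM)⟩

/-- no points of low degree -/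
theorem free (N d : ℕ) (hN : 1 ≤ N) (hd : 2 ≤ d) (O J : Type) [CommRing O] [IsDomain O]
    [Fintype J] (ω : Module.Basis J ℤ O) :
    ProNull {w : Idx (N + 1) d × J → ℤ | ¬ Pool.Agent.W275.ND.FreeO (d * Fintype.card J) (Ph ω w)} :=
  fun M hM => Pool.Agent.N938.TD.final_free N d hN hd O J ω (denPro _ M hM) (hdens _ M hM)

end Pool.Agent.N891.OYU
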